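import Pool.Agent.Lib.MP_1a91b9_ntV.F.FormV
import Pool.Agent.Lib.MP_1a91b9_ntV.A.Lva7

/-!
# Form T over `ℚ(√-7)`, file ValV: the valuations of the normalised value

`valV`: the real number `xV d0 d1 d2 S` is integral at all places over `2`, a unit at all of them if
`Cr.Good D7 S d0 d1 d2` and at none of them otherwise.
-/

set_option autoImplicit false
set_option linter.unusedSectionVars false

namespace Pool.Agent.Lib.MP_1a91b9_ntV.F

open NumberField IsDedekindDomain Finset Pool.Agent.Lib.MP_1a91b9_nuT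
  Pool.Agent.Lib.MP_1a91b9_nuT.S3 Pool.Agent.Lib.MP_1a91b9_nuT.Ell
open Pool.Agent.Lib.MP_1a91b9_ntQ (Dat2)

noncomputable section

variable {B : ValuationSubring ℂ}

/-! ### real numbers and conjugate places -/

theorem v_lt_iff {B : ValuationSubring ℂ} {x : ℂ} (hx : x ≠ 0) : B.valuation x < 1 ↔ x⁻¹ ∉ B := by
  have h0 : B.valuation x ≠ 0 := (Valuation.ne_zero_iff _).2 hx
  rw [← ValuationSubring.valuation_le_one_iff, not_le, map_inv₀, one_lt_inv₀ (zero_lt_iff.2 h0)]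

theorem v_real_lt (B : ValuationSubring ℂ) (x : ℝ) :
    (B.comap (starRingEnd ℂ)).valuation (x : ℂ) < 1 ↔ B.valuation (x : ℂ) < 1 := by
  by_cases hx : (x : ℂ) = 0
  · rw [hx, map_zero, map_zero]
    exact ⟨fun _ => zero_lt_one, fun _ => zero_lt_one⟩
  · rw [v_lt_iff hx, v_lt_iff hx, ValuationSubring.mem_comap, map_inv₀, Complex.conj_ofReal]

theorem v_real_le (B : ValuationSubring ℂ) (x : ℝ) :
    (B.comap (starRingEnd ℂ)).valuation (x : ℂ) ≤ 1 ↔ B.valuation (x : ℂ) ≤ 1 := by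
  rw [ValuationSubring.valuation_le_one_iff, ValuationSubring.valuation_le_one_iff,
    ValuationSubring.mem_comap, Complex.conj_ofReal]

theorem v_real_eq (B : ValuationSubring ℂ) (x : ℝ) :
    (B.comap (starRingEnd ℂ)).valuation (x : ℂ) = 1 ↔ B.valuation (x : ℂ) = 1 := by
  have h1 := v_real_lt B x
  have h2 := v_real_le B x
  constructor
  · intro h
    exact le_antisymm (h2.1 h.le) (not_lt.1 fun h3 => (h1.2 h3).ne h)
  · intro h
    exact le_antisymm (h2.2 h.le) (not_lt.1 fun h3 => (h1.1 h3).ne h)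

variable [CD] [hv : V7]

/-- the square of the normalised value -/
theorem xV_sq (d0 d1 d2 : ZMod 2) (S : Finset Pg7) :
    ((xV d0 d1 d2 S : ℝ) : ℂ) ^ 2 * 2 ^ (2 * (2 * S.card + betV d0 d1 d2 S + cA d0 d1 d2 + cB d0 d1 d2 S)) =
      -((LS d0 d1 d2 S ^ 2 * zt ^ d1.val) * (LS (d0 + 1 + AA S) d2 d1 (cS S) ^ 2 * zt ^ d2.val) *
        (ab ^ d1.val * ab ^ d2.val)) := by
  have h1 : ((‖LS d0 d1 d2 S‖ ^ 2 : ℝ) : ℂ) ^ 2 =
      -(LS d0 d1 d2 S ^ 2 * LS (d0 + 1 + AA S) d2 d1 (cS S) ^ 2) := by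
    have h2 : ((‖LS d0 d1 d2 S‖ ^ 2 : ℝ) : ℂ) = LS d0 d1 d2 S * (starRingEnd ℂ) (LS d0 d1 d2 S) := by
      rw [Complex.mul_conj, Complex.normSq_eq_norm_sq]
    rw [h2, mul_pow, LS_conj_sq, mul_neg]
  have h3 : ((‖zt‖ ^ d1.val : ℝ) : ℂ) ^ 2 = zt ^ d1.val * ab ^ d1.val := by
    rw [← mul_pow, zt_mul_ab, ← Complex.ofReal_pow, ← pow_mul, mul_comm d1.val 2, pow_mul,
      norm_zt_sq]
    push_cast
    rfl
  have h4 : ((‖ab‖ ^ d2.val : ℝ) : ℂ) ^ 2 = zt ^ d2.val * ab ^ d2.val := by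
    rw [← mul_pow, zt_mul_ab, ← Complex.ofReal_pow, ← pow_mul, mul_comm d2.val 2, pow_mul,
      norm_ab_sq]
    push_cast
    rfl
  obtain ⟨E, hE⟩ : ∃ E, E = 2 * S.card + betV d0 d1 d2 S + cA d0 d1 d2 + cB d0 d1 d2 S := ⟨_, rfl⟩
  have h5 : ((xV d0 d1 d2 S : ℝ) : ℂ) = ((‖LS d0 d1 d2 S‖ ^ 2 : ℝ) : ℂ) * ((‖zt‖ ^ d1.val : ℝ) : ℂ) *
      ((‖ab‖ ^ d2.val : ℝ) : ℂ) / 2 ^ E := by
    rw [xV, ← hE]
    push_cast
    rfl
  rw [← hE, h5, div_pow, mul_pow, mul_pow, h1, h3, h4, ← pow_mul, mul_comm E 2,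
    div_mul_cancel₀ _ (pow_ne_zero _ two_ne_zero)]
  ring

theorem kA_add (d0 d1 d2 : ZMod 2) (S : Finset Pg7) :
    kA d0 d1 d2 S + kA (d0 + 1 + AA S) d2 d1 (cS S) =
      2 * (2 * S.card + betV d0 d1 d2 S + cA d0 d1 d2 + cB d0 d1 d2 S) := by
  have e0 : (cS S).card = S.card := Finset.card_map _
  have e1 : 1 + (d0 + 1 + AA S) + d1 = d0 + d1 + AA S :=
    (by decide : ∀ a b u : ZMod 2, 1 + (a + 1 + u) + b = a + b + u) _ _ _
  have e2 : d0 + 1 + AA S + d2 + AA S = 1 + d0 + d2 :=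
    (by decide : ∀ a b u : ZMod 2, a + 1 + u + b + u = 1 + a + b) _ _ _
  rw [kA, kA, AA_cS, e0, e1, e2, betV, cA, cB]
  ring

/-- the valuations at a place of type `a` -/
theorem xV_val (hB : te ∉ B) {d0 d1 d2 : ZMod 2} {S : Finset Pg7}
    (h0 : ¬ (S = ∅ ∧ d1 = 0 ∧ d2 = 0)) :
    (Cr.Good D7 S d0 d1 d2 → B.valuation ((xV d0 d1 d2 S : ℝ) : ℂ) = 1) ∧
      (¬ Cr.Good D7 S d0 d1 d2 → B.valuation ((xV d0 d1 d2 S : ℝ) : ℂ) < 1) := by
  have hg := Good_cS recL7 (d0 := d0) h0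
  have h0' : ¬ (cS S = ∅ ∧ d2 = 0 ∧ d1 = 0) := by
    rintro ⟨h1, h2, h3⟩
    refine h0 ⟨?_, h3, h2⟩
    rw [cS, Finset.map_eq_empty] at h1
    exact h1
  have k1 := (LS_val hB recL7 supA7 (d0 := d0) h0).good
  have k2 := (LS_val hB recL7 supA7 (d0 := d0 + 1 + AA S) h0').good
  rw [dat7_eq] at hg k1 k2
  rw [hg] at k2
  have hz : B.valuation zt ≠ 0 := (Valuation.ne_zero_iff _).2 zt_ne0
  obtain ⟨E, hE⟩ : ∃ E, E = 2 * S.card + betV d0 d1 d2 S + cA d0 d1 d2 + cB d0 d1 d2 S := ⟨_, rfl⟩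
  have h1 := congrArg B.valuation (xV_sq d0 d1 d2 S)
  have h2 := kA_add d0 d1 d2 S
  rw [← hE] at h1 h2
  rw [Valuation.map_neg, map_mul, map_mul _ _ (ab ^ d1.val * ab ^ d2.val), map_mul _ (ab ^ d1.val),
    map_pow _ ab, map_pow _ ab, v_ab hB, one_pow, one_pow, one_mul, mul_one, v_two_pow hB, ← h2,
    pow_add, map_mul _ (LS d0 d1 d2 S ^ 2 * zt ^ d1.val), map_pow] at h1
  have hp1 : 0 < B.valuation zt ^ kA d0 d1 d2 S := pow_pos v_zt_pos _
  have hp2 : 0 < B.valuation zt ^ kA (d0 + 1 + AA S) d2 d1 (cS S) := pow_pos v_zt_pos _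
  constructor
  · intro hG
    rw [k1.1 hG, k2.1 hG] at h1
    have h3 : B.valuation ((xV d0 d1 d2 S : ℝ) : ℂ) ^ 2 = 1 :=
      mul_right_cancel₀ (mul_ne_zero hp1.ne' hp2.ne') (h1.trans (one_mul _).symm)
    rcases lt_trichotomy (B.valuation ((xV d0 d1 d2 S : ℝ) : ℂ)) 1 with h4 | h4 | h4
    · exact absurd h3 (pow_lt_one₀ zero_le h4 two_ne_zero).ne
    · exact h4
    · exact absurd h3 (one_lt_pow₀ h4 two_ne_zero).ne'
  · intro hG
    have h3 := mul_lt_mul'' (k1.2 hG) (k2.2 hG) zero_le zero_le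
    rw [← h1] at h3
    by_contra h4
    rw [not_lt] at h4
    have h5 : 1 ≤ B.valuation ((xV d0 d1 d2 S : ℝ) : ℂ) ^ 2 := one_le_pow₀ h4
    have h6 := mul_le_mul_left h5 (B.valuation zt ^ kA d0 d1 d2 S *
      B.valuation zt ^ kA (d0 + 1 + AA S) d2 d1 (cS S))
    rw [one_mul] at h6
    exact absurd (lt_of_lt_of_le h3 h6) (lt_irrefl _)

/-- **The valuations of the normalised value.** -/
theorem valV : ValV := by
  intro d0 d1 d2 S h0 B h2
  by_cases hB : te ∉ B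
  · exact xV_val hB h0
  · rw [not_not] at hB
    have hB' : te ∉ B.comap (starRingEnd ℂ) := by
      rw [ValuationSubring.mem_comap]
      have e : (starRingEnd ℂ) te = tf := by rw [te, tf, map_inv₀, conj_zt7]
      rw [e]
      intro h
      apply h2
      have h3 := B.mul_mem _ _ hB h
      rwa [te, tf, ← mul_inv, zt_mul_ab] at h3
    have h3 := xV_val hB' (d0 := d0) h0
    rw [v_real_eq, v_real_lt] at h3
    exact h3

end

end Pool.Agent.Lib.MP_1a91b9_ntV.F
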