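import Pool.Agent.Lib.MP_1a91b9_ntV.F.BsdV
import Pool.Agent.Lib.MP_1a91b9_ntV.F.ValV
import Pool.Agent.Lib.MP_1a91b9_ntV.C.Exc7
import Pool.Agent.Lib.MP_1a91b9_ntV.L.Loc7
import Pool.Agent.Lib.MP_1a91b9_ntV.T.PerV

/-!
# Form T over `ℚ(√-7)`, file FinV: the field `K7`

`bsdV7` : a rational number `q d` for every squarefree `d`, with `BSDMod 2`, odd exactly if the
criterion holds.
-/

set_option autoImplicit false
set_option linter.unusedSectionVars false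

namespace Pool.Agent.Lib.MP_1a91b9_ntV.F

open NumberField Pool.Agent.Lib.MP_1a91b9_nuT
open Pool.Agent.Lib.MP_1a91b9_ntV.L (dE dE_ne WE serD)
open Pool.Agent.Lib.MP_1a91b9_ntS (BSDMod)
open Pool.Agent.Lib.MP_1a91b9_ntV.T (prod_perAt7 sqrt_discr7)

noncomputable section

/-- the series -/
theorem serV7 : SerV := fun d0 d1 d2 S => serD d0 d1 d2 S

/-- the period -/
theorem perV7 : PerV := fun _ hD => prod_perAt7 hD

/-- **The conjecture of Birch and Swinnerton-Dyer modulo `2`** for every squarefree `d`. -/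
theorem bsdV7 : ∃ q : 𝓞 K7 → ℚ, (∀ d : 𝓞 K7, Squarefree d → BSDMod 2 (WE d) (q d)) ∧
    ∀ (d0 d1 d2 : ZMod 2) (S : Finset Pg7), ¬ (S = ∅ ∧ d1 = 0 ∧ d2 = 0) →
      (¬ (2 : ℤ) ∣ (q (dE d0 d1 d2 S)).num ↔ Cr.Good D7 S d0 d1 d2) :=
  bsdV serV7 perV7 sqrt_discr7 valV Pool.Agent.Lib.MP_1a91b9_ntV.C.exc7

end

end Pool.Agent.Lib.MP_1a91b9_ntV.F
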