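import Pool.Agent.Lib.MP_1a91b9_ntV.A.Sum7
import Pool.Agent.Lib.MP_1a91b9_nuX.RG.Act
import Pool.Agent.Lib.MP_1a91b9_nuT.Rg.Fx

/-!
# Form T over `ℚ(√-7)`, file ActV: the action of the automorphisms of `ℂ` on the values of `ee`

`AutV τ M χ`: `τ (ee (a / M)) = ee (χ a / M)`. `AutV.exists`; the residues of `χ` at the two places over
`2`; the action on `gg`, `hh` and on the sums `SE`.
-/

set_option autoImplicit false
set_option linter.unusedSectionVars false

namespace Pool.Agent.Lib.MP_1a91b9_ntV.F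

open NumberField Finset Pool.Agent.Lib.MP_1a91b9_nuT Pool.Agent.Lib.MP_1a91b9_nuT.S3
  Pool.Agent.Lib.MP_1a91b9_nuT.Ell
open Pool.Agent.Lib.MP_1a91b9_nuX.RG (RlM Hact exists_act2)
open Pool.Agent.Lib.MP_1a91b9_nuT.Rq (ev Rel)
open Pool.Agent.Lib.MP_1a91b9_ntQ (em em_add em_mul em_pow em_sub em_neg em_zero em_one em_ne em_prod
  em_ofNat em_intCast em_natCast em_inj)

noncomputable section

variable [CD]

/-- the data of an automorphism -/
structure AutV [V7] (τ : ℂ ≃+* ℂ) (M : ℕ) (χ : 𝓞 K) : Prop where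
  fix : Rq.Fix τ
  pos : 0 < M
  dvd : 8 ∣ M
  cop : IsCoprime χ (M : 𝓞 K)
  ev : ∀ a : 𝓞 K, τ (ee (em a / M)) = ee (em (χ * a) / M)

section
variable [hv : V7]

theorem AutV.exists {τ : ℂ ≃+* ℂ} (hτ : Rq.Fix τ) {M : ℕ} (hM : 0 < M) (h8 : 8 ∣ M) :
    ∃ χ : 𝓞 K, AutV τ M χ := by
  obtain ⟨χ₀, -, -, hH⟩ := exists_act2 hτ M hM
  obtain ⟨χ, -, hcop, hE⟩ := hH M hM
  have hs : τ sg = sg ∨ τ sg = -sg := by
    have h1 : (τ sg) ^ 2 = sg ^ 2 := by
      rw [← map_pow, sg_sq, s7, map_sub, map_mul, map_ofNat, map_one]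
      rw [show τ zt = zt from hτ]
    exact sq_eq_sq_iff_eq_or_eq_neg.1 h1
  have hcu : τ cu = cu := by
    rw [cu, map_intCast]
  have hev : ∀ a : 𝓞 K, τ (E1 (em a / M) / Om) = E1 (em (χ * a) / M) / Om := by
    intro a
    have h1 := hE a
    have e : em (χ * a) / M = embK (χ : K) * embK (a : K) / M := by
      rw [em_mul]
      rfl
    rw [e]
    exact h1
  have hee : ∀ z : ℂ, ee z = (E1 z / Om) / (cu * sg) := by
    intro z
    rw [ee, O7, div_div, mul_assoc]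
  rcases hs with h | h
  · refine ⟨χ, hτ, hM, h8, hcop, fun a => ?_⟩
    rw [hee, hee, map_div₀, hev, map_mul, hcu, h]
  · refine ⟨-χ, hτ, hM, h8, hcop.neg_left, fun a => ?_⟩
    have e : em (-χ * a) / M = -(em (χ * a) / M) := by
      have h4 : em (-χ * a) = -em (χ * a) := by rw [neg_mul, em_neg]
      rw [h4, neg_div]
    rw [e, ee_neg, hee, hee, map_div₀, hev, map_mul, hcu, h, mul_neg, div_neg]

section
variable {τ : ℂ ≃+* ℂ} {M : ℕ} {χ : 𝓞 K}

theorem AutV.ne (h : AutV τ M χ) : (M : ℂ) ≠ 0 := by exact_mod_cast h.pos.ne'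

theorem AutV.zt (h : AutV τ M χ) : τ zt = zt := h.fix

theorem AutV.ab (h : AutV τ M χ) : τ ab = ab := by
  rw [MP_1a91b9_ntV.ab, map_sub, map_one, h.zt]

/-- the action on the value at a point `z` with `M z` in the lattice -/
theorem AutV.pt (h : AutV τ M χ) {z : ℂ} (hz : (M : ℂ) * z ∈ PP.lattice) :
    τ (ee z) = ee (em χ * z) := by
  obtain ⟨a, ha⟩ := S3.mem_PP_iff.1 hz
  have ha' : em a = (M : ℂ) * z := ha
  have e : z = em a / M := by
    rw [ha', mul_div_cancel_left₀ _ h.ne]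
  have e2 : em χ * z = em (χ * a) / M := by
    rw [em_mul, ha', mul_div_assoc, mul_div_cancel_left₀ _ h.ne]
  rw [e2, ← h.ev a, ← e]

theorem AutV.em_mem (_ : AutV τ M χ) {a b : 𝓞 K} (hb : b ≠ 0) (hd : b ∣ (M : 𝓞 K)) :
    (M : ℂ) * (em a / em b) ∈ PP.lattice := by
  obtain ⟨c, hc⟩ := hd
  have e : (M : ℂ) * (em a / em b) = em (c * a) := by
    have h1 : (M : ℂ) = em b * em c := by rw [← em_natCast, hc, em_mul]
    have hb0 := em_ne hb
    rw [h1, em_mul]
    field_simp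
  rw [e]
  exact MP_1a91b9_ntV.em_mem _

/-- the powers of `ta`, `tb` dividing `M` -/
theorem AutV.dvd8 (h : AutV τ M χ) : ta ^ 3 * tb ^ 3 ∣ (M : 𝓞 K) := by
  obtain ⟨m, hm⟩ := h.dvd
  refine ⟨(m : 𝓞 K), ?_⟩
  rw [hm, ← mul_pow, ta_mul_tb]
  push_cast
  norm_num

theorem AutV.not_ta (h : AutV τ M χ) : ¬ ta ∣ χ := by
  intro h1
  have h2 : ta ∣ (M : 𝓞 K) := ((dvd_pow_self ta three_ne_zero).trans (dvd_mul_right _ _)).trans h.dvd8
  exact ta_prime.not_isUnit (h.cop.isUnit_of_dvd' h1 h2)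

theorem AutV.not_tb (h : AutV τ M χ) : ¬ tb ∣ χ := by
  intro h1
  have h2 : tb ∣ (M : 𝓞 K) := ((dvd_pow_self tb three_ne_zero).trans (dvd_mul_left _ _)).trans h.dvd8
  exact tb_prime.not_isUnit (h.cop.isUnit_of_dvd' h1 h2)

theorem AutV.ta_sub (h : AutV τ M χ) : ta ∣ χ - 1 := by
  rw [ta_dvd, map_sub, map_one]
  have h1 := mt ta_dvd.2 h.not_ta
  revert h1
  generalize ra χ = u
  revert u
  decide

theorem AutV.tb_sub (h : AutV τ M χ) : tb ∣ χ - 1 := by
  rw [tb_dvd, map_sub, map_one]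
  have h1 := mt tb_dvd.2 h.not_tb
  revert h1
  generalize rb χ = u
  revert u
  decide

theorem AutV.te_sub (h : AutV τ M χ) : em χ * te - te ∈ PP.lattice := by
  obtain ⟨y, hy⟩ := h.ta_sub
  have e : em χ * te - te = em y := by
    have h1 : em χ - 1 = MP_1a91b9_nuT.zt * em y := by
      rw [← em_one, ← em_sub, hy, em_mul, em_ta]
    linear_combination te * h1 + em y * zt_mul_te
  rw [e]
  exact MP_1a91b9_ntV.em_mem _

theorem AutV.tf_sub (h : AutV τ M χ) : em χ * tf - tf ∈ PP.lattice := by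
  obtain ⟨y, hy⟩ := h.tb_sub
  have e : em χ * tf - tf = em y := by
    have h1 : em χ - 1 = MP_1a91b9_ntV.ab * em y := by
      rw [← em_one, ← em_sub, hy, em_mul, em_tb]
    linear_combination tf * h1 + em y * ab_mul_tf
  rw [e]
  exact MP_1a91b9_ntV.em_mem _

theorem te_eq : te = em 1 / em (ta : 𝓞 K) := by
  rw [te, em_one, em_ta, one_div]

theorem tf_eq : tf = em 1 / em (tb : 𝓞 K) := by
  rw [tf, em_one, em_tb, one_div]

theorem AutV.te_mem (h : AutV τ M χ) : (M : ℂ) * te ∈ PP.lattice := by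
  rw [te_eq]
  exact h.em_mem ta_ne (((dvd_pow_self ta three_ne_zero).trans (dvd_mul_right _ _)).trans h.dvd8)

theorem AutV.tf_mem (h : AutV τ M χ) : (M : ℂ) * tf ∈ PP.lattice := by
  rw [tf_eq]
  exact h.em_mem tb_ne (((dvd_pow_self tb three_ne_zero).trans (dvd_mul_left _ _)).trans h.dvd8)

/-- the action on the values of `gg` -/
theorem AutV.gg' (h : AutV τ M χ) {z : ℂ} (hz : (M : ℂ) * z ∈ PP.lattice) :
    τ (gg z) = gg (em χ * z) := by
  have h1 : (M : ℂ) * (z + te) ∈ PP.lattice := by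
    rw [mul_add]
    exact add_mem hz h.te_mem
  rw [gg, gg, map_sub, h.pt hz, h.pt h1]
  congr 1
  refine ee_cg ?_
  have e : em χ * (z + te) - (em χ * z + te) = em χ * te - te := by ring
  rw [e]
  exact h.te_sub

/-- the action on the values of `hh` -/
theorem AutV.hh' (h : AutV τ M χ) {z : ℂ} (hz : (M : ℂ) * z ∈ PP.lattice) :
    τ (hh z) = hh (em χ * z) := by
  have h1 : (M : ℂ) * (z + tf) ∈ PP.lattice := by
    rw [mul_add]
    exact add_mem hz h.tf_mem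
  rw [hh, hh, map_sub, h.pt hz, h.pt h1]
  congr 1
  refine ee_cg ?_
  have e : em χ * (z + tf) - (em χ * z + tf) = em χ * tf - tf := by ring
  rw [e]
  exact h.tf_sub

theorem AutV.gg (h : AutV τ M χ) (a : 𝓞 K) :
    τ (MP_1a91b9_ntV.gg (em a / M)) = MP_1a91b9_ntV.gg (em (χ * a) / M) := by
  have h1 : (M : ℂ) * (em a / M) ∈ PP.lattice := by
    rw [mul_div_cancel₀ _ h.ne]
    exact MP_1a91b9_ntV.em_mem _
  rw [h.gg' h1, em_mul, mul_div_assoc]

/-- the action on the values of `gg` at the points `a / b`, `b` a divisor of `M` -/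
theorem AutV.ggd (h : AutV τ M χ) {a b : 𝓞 K} (hb : b ≠ 0) (hd : b ∣ (M : 𝓞 K)) :
    τ (MP_1a91b9_ntV.gg (em a / em b)) = MP_1a91b9_ntV.gg (em (χ * a) / em b) := by
  rw [h.gg' (h.em_mem hb hd), em_mul, mul_div_assoc]

theorem te2_notMem : te ^ 2 ∉ PP.lattice := by
  intro h
  apply te_notMem
  have h1 := mul_mem zt_mem h
  have e : zt * te ^ 2 = te := by
    rw [pow_two, ← mul_assoc, zt_mul_te, one_mul]
  rwa [e] at h1

/-- `χ` is congruent to `1` modulo `a²` -/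
theorem AutV.ta2_sub (h : AutV τ M χ) : ta ^ 2 ∣ χ - 1 := by
  have h1 : ta ^ 2 ∣ χ - 1 ∨ ta ^ 2 ∣ χ + 1 := by
    rw [ta2_dvd, ta2_dvd, map_sub, map_add, map_one]
    have h1 := mt ta_dvd.2 h.not_ta
    revert h1
    generalize ra χ = u
    revert u
    decide
  rcases h1 with h1 | h1
  · exact h1
  · exfalso
    have h2 : (M : ℂ) * te ^ 2 ∈ PP.lattice := by
      have e : te ^ 2 = em 1 / em (ta ^ 2 : 𝓞 K) := by
        rw [te, em_one, em_pow, em_ta, inv_pow, one_div]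
      rw [e]
      refine h.em_mem (pow_ne_zero _ ta_ne) ?_
      exact ((pow_dvd_pow ta (by norm_num : 2 ≤ 3)).trans (dvd_mul_right _ _)).trans h.dvd8
    have h3 := h.pt h2
    have h4 : ee (em χ * te ^ 2) = ee (-te ^ 2) := by
      refine ee_cg ?_
      obtain ⟨y, hy⟩ := h1
      have h5 : em χ + 1 = MP_1a91b9_nuT.zt ^ 2 * em y := by
        rw [← em_one, ← em_add, hy, em_mul, em_pow, em_ta]
      have e : em χ * te ^ 2 - -te ^ 2 = em y := by
        have h6 : MP_1a91b9_nuT.zt ^ 2 * te ^ 2 = 1 := by rw [← mul_pow, zt_mul_te, one_pow]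
        linear_combination te ^ 2 * h5 + em y * h6
      rw [e]
      exact MP_1a91b9_ntV.em_mem _
    rw [h4, ee_neg, ee_te2, map_div₀, map_one, h.ab] at h3
    have h5 : (1 / MP_1a91b9_ntV.ab : ℂ) ≠ 0 := one_div_ne_zero ab_ne
    apply h5
    linear_combination (1 / 2) * h3

theorem AutV.ra2 (h : AutV τ M χ) : 2 * ra χ = 2 := by
  have h1 := ta2_dvd.1 h.ta2_sub
  rw [map_sub, map_one] at h1
  linear_combination h1

/-- **The action on the sums.** -/
theorem AutV.SE (h : AutV τ M χ) {N : 𝓞 K} (hN : N ≠ 0) (hd : N ∣ (M : 𝓞 K)) {Y : 𝓞 K → ℂ}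
    (hY : Pd N Y) (hm : Mu Y) (hτY : ∀ a, τ (Y a) = Y a) :
    Y χ * τ (SE ee N Y) = MP_1a91b9_ntV.SE ee N Y := by
  have hN0 := em_ne hN
  obtain ⟨ι, _, a, ha⟩ := CRS.exists_crs hN
  have hpd := SE_pd LP_ee hN hY
  have hc : IsCoprime χ N := IsCoprime.of_isCoprime_of_dvd_right h.cop hd
  have h1 := SM_mul hN hpd hc
  have hpd2 : Pd N fun x => Y (χ * x) * ee (em (χ * x) / em N) := by
    intro x y hxy
    have h2 : N ∣ χ * x - χ * y := by
      rw [← mul_sub]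
      exact hxy.mul_left _
    exact hpd _ _ h2
  have e1 : MP_1a91b9_ntV.SE ee N Y = ∑ i, Y (a i) * ee (em (a i) / em N) := SM_eq hN ha hpd
  have e2 : MP_1a91b9_ntV.SE ee N Y = ∑ i, Y (χ * a i) * ee (em (χ * a i) / em N) :=
    h1.symm.trans (SM_eq hN ha hpd2)
  have e3 : Y χ * τ (MP_1a91b9_ntV.SE ee N Y) = Y χ * τ (∑ i, Y (a i) * ee (em (a i) / em N)) := by
    rw [← e1]
  rw [e3, e2, map_sum, Finset.mul_sum]
  refine Finset.sum_congr rfl fun i _ => ?_
  have h2 : τ (ee (em (a i) / em N)) = ee (em (χ * a i) / em N) := by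
    rw [h.pt (h.em_mem hN hd), em_mul, mul_div_assoc]
  rw [map_mul, hτY, h2, hm]
  ring

end

end

end

end Pool.Agent.Lib.MP_1a91b9_ntV.F
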