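import Pool.Agent.Lib.MP_1a91b9_ntV.F.ActV

/-!
# Form T over `ℚ(√-7)`, file BaseV: the numbers attached to `-1`, `a`, `ab`

`kp ^ 2 = -1`, `al ^ 2 = -a`, `be ^ 2 = ab`; the action of the automorphisms: the local characters.
-/

set_option autoImplicit false
set_option linter.unusedSectionVars false

namespace Pool.Agent.Lib.MP_1a91b9_ntV.F

open NumberField Finset Pool.Agent.Lib.MP_1a91b9_nuT Pool.Agent.Lib.MP_1a91b9_nuT.S3
  Pool.Agent.Lib.MP_1a91b9_nuT.Ell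
open Pool.Agent.Lib.MP_1a91b9_ntQ (em em_add em_mul em_pow em_sub em_neg em_zero em_one em_ne em_prod
  em_ofNat em_intCast em_natCast em_inj)

noncomputable section

variable [CD] [hv : V7]

/-! ### the values -/

theorem nl_te' {z : ℂ} (h : z - te ∈ PP.lattice) : z ∉ PP.lattice := by
  intro h1
  apply te_notMem
  have := sub_mem h1 h
  have e : z - (z - te) = te := by ring
  rwa [e] at this

theorem nl_tf' {z : ℂ} (h : z - tf ∈ PP.lattice) : z ∉ PP.lattice := by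
  intro h1
  apply tf_notMem
  have := sub_mem h1 h
  have e : z - (z - tf) = tf := by ring
  rwa [e] at this

theorem zt_te2 : zt * te ^ 2 = te := by
  rw [pow_two, ← mul_assoc, zt_mul_te, one_mul]

theorem ab_tf2 : ab * tf ^ 2 = tf := by
  rw [pow_two, ← mul_assoc, ab_mul_tf, one_mul]

theorem two_te2 : 2 * te ^ 2 ∉ PP.lattice := by
  refine nl_te' ?_
  have e : 2 * te ^ 2 - te = ab * te - te := by
    rw [← two_te]
    ring
  rw [e]
  exact ab_te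

theorem two_tf2 : 2 * tf ^ 2 ∉ PP.lattice := by
  refine nl_tf' ?_
  have e : 2 * tf ^ 2 - tf = zt * tf - tf := by
    rw [← two_tf]
    ring
  rw [e]
  exact zt_tf

theorem XX_te2 : XX (te ^ 2) = -zt := by
  have h := XX_zt two_te2
  rw [zt_te2, XX_te] at h
  have h2 : xx (te ^ 2) = XX (te ^ 2) - 1 := by rw [XX]; ring
  rw [h2] at h
  have h3 : (XX (te ^ 2) + zt) ^ 2 = 0 := by
    rw [zt_four] at h
    linear_combination -h + (XX (te ^ 2)) * zt_sq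
  have h4 := pow_eq_zero_iff two_ne_zero |>.1 h3
  linear_combination h4

theorem XX_tf2 : XX (tf ^ 2) = -zt ^ 2 := by
  have h := XX_ab two_tf2
  rw [ab_tf2, XX_tf, mul_zero, zero_mul] at h
  have h4 := pow_eq_zero_iff two_ne_zero |>.1 h.symm
  linear_combination h4

theorem xx_tf2 : xx (tf ^ 2) = ab := by
  have h : xx (tf ^ 2) = XX (tf ^ 2) - 1 := by rw [XX]; ring
  rw [h, XX_tf2, ab]
  linear_combination -zt_sq

/-- the square root of `-1` -/
def kp : ℂ := gg (te * tf ^ 2) / zt ^ 2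

/-- the square root of `-a` -/
def al : ℂ := gg (te ^ 3) / zt

/-- the square root of `ab` -/
def be : ℂ := hh (tf ^ 3) / ab

theorem kp_sq : kp ^ 2 = -1 := by
  have h0 : zt * (te * tf ^ 2) = tf ^ 2 := by rw [← mul_assoc, zt_mul_te, one_mul]
  have h : gg (te * tf ^ 2) ^ 2 = zt ^ 2 * XX (zt * (te * tf ^ 2)) := by
    refine gg_sq ?_
    rw [h0]
    exact notMem_of_two_mul two_tf2
  rw [h0, XX_tf2] at h
  have hz : zt ≠ 0 := zt_ne0
  rw [kp, div_pow, h]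
  field_simp

theorem al_sq : al ^ 2 = -zt := by
  have h0 : zt * te ^ 3 = te ^ 2 := by
    have e : zt * te ^ 3 = (zt * te) * te ^ 2 := by ring
    rw [e, zt_mul_te, one_mul]
  have h : gg (te ^ 3) ^ 2 = zt ^ 2 * XX (zt * te ^ 3) := by
    refine gg_sq ?_
    rw [h0]
    exact notMem_of_two_mul two_te2
  rw [h0, XX_te2] at h
  have hz : zt ≠ 0 := zt_ne0
  rw [al, div_pow, h]
  field_simp

theorem be_sq : be ^ 2 = ab := by
  have h0 : ab * tf ^ 3 = tf ^ 2 := by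
    have e : ab * tf ^ 3 = (ab * tf) * tf ^ 2 := by ring
    rw [e, ab_mul_tf, one_mul]
  have h : hh (tf ^ 3) ^ 2 = ab ^ 2 * xx (ab * tf ^ 3) := by
    refine hh_sq ?_
    rw [h0]
    exact notMem_of_two_mul two_tf2
  rw [h0, xx_tf2] at h
  have hz : ab ≠ 0 := ab_ne
  rw [be, div_pow, h]
  field_simp

theorem kp_ne : kp ≠ 0 := by
  intro h
  have h1 := kp_sq
  rw [h] at h1
  norm_num at h1

theorem al_ne : al ≠ 0 := by
  intro h
  have h1 := al_sq
  rw [h] at h1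
  apply zt_ne0
  linear_combination h1

theorem be_ne : be ≠ 0 := by
  intro h
  have h1 := be_sq
  rw [h] at h1
  apply ab_ne
  linear_combination -h1

theorem norm_kp : ‖kp‖ ^ 2 = 1 := by
  rw [← norm_pow, kp_sq, norm_neg, norm_one]

theorem norm_al : ‖al‖ ^ 2 = ‖zt‖ := by
  rw [← norm_pow, al_sq, norm_neg]

theorem norm_be : ‖be‖ ^ 2 = ‖ab‖ := by
  rw [← norm_pow, be_sq]

/-! ### the action -/

section
variable {τ : ℂ ≃+* ℂ} {M : ℕ} {χ : 𝓞 K}

theorem te_pow (n : ℕ) : te ^ n = em 1 / em (ta ^ n : 𝓞 K) := by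
  rw [te, em_one, em_pow, em_ta, inv_pow, one_div]

theorem tf_pow (n : ℕ) : tf ^ n = em 1 / em (tb ^ n : 𝓞 K) := by
  rw [tf, em_one, em_pow, em_tb, inv_pow, one_div]

theorem AutV.mem_te (h : AutV τ M χ) {n : ℕ} (hn : n ≤ 3) : (M : ℂ) * te ^ n ∈ PP.lattice := by
  rw [te_pow]
  exact h.em_mem (pow_ne_zero _ ta_ne) (((pow_dvd_pow ta hn).trans (dvd_mul_right _ _)).trans h.dvd8)

theorem AutV.mem_tf (h : AutV τ M χ) {n : ℕ} (hn : n ≤ 3) : (M : ℂ) * tf ^ n ∈ PP.lattice := by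
  rw [tf_pow]
  exact h.em_mem (pow_ne_zero _ tb_ne) (((pow_dvd_pow tb hn).trans (dvd_mul_left _ _)).trans h.dvd8)

/-- the action on `√-1` -/
theorem AutV.kp (h : AutV τ M χ) : τ kp = (lB 1 0 χ : ℂ) * MP_1a91b9_ntV.F.kp := by
  have h1 : (M : ℂ) * (te * tf ^ 2) ∈ PP.lattice := by
    have e : te * tf ^ 2 = em 1 / em (ta * tb ^ 2 : 𝓞 K) := by
      rw [em_one, em_mul, em_pow, em_ta, em_tb, te, tf, one_div, mul_inv, inv_pow]
    rw [e]
    refine h.em_mem (mul_ne_zero ta_ne (pow_ne_zero _ tb_ne)) ?_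
    refine (mul_dvd_mul ?_ ?_).trans h.dvd8
    · exact dvd_pow_self ta three_ne_zero
    · exact pow_dvd_pow tb (by norm_num)
  have h2 := h.gg' h1
  have h0 : te * tf ^ 2 * (MP_1a91b9_nuT.zt * MP_1a91b9_ntV.ab ^ 2) = 1 := by
    have e : te * tf ^ 2 * (MP_1a91b9_nuT.zt * MP_1a91b9_ntV.ab ^ 2) =
      (MP_1a91b9_nuT.zt * te) * (MP_1a91b9_ntV.ab * tf) ^ 2 := by ring
    rw [e, zt_mul_te, ab_mul_tf]
    norm_num
  -- `χ = ± 1` modulo `a ab²`
  have key : ∀ s : 𝓞 K, (s = 1 ∨ s = -1) → tb ^ 2 ∣ χ - s →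
      MP_1a91b9_ntV.gg (em χ * (te * tf ^ 2)) = MP_1a91b9_ntV.gg (em s * (te * tf ^ 2)) := by
    intro s hs hd
    have hd1 : ta ∣ χ - s := by
      rcases hs with rfl | rfl
      · exact h.ta_sub
      · have e : χ - -1 = (χ - 1) + ta * tb := by
          rw [ta_mul_tb]
          ring
        rw [e]
        exact dvd_add h.ta_sub (dvd_mul_right _ _)
    have hd2 : ta * tb ^ 2 ∣ χ - s := (ta_tb_cop.pow_right).mul_dvd hd1 hd
    obtain ⟨y, hy⟩ := hd2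
    refine gg_cg ?_
    have h5 : em χ - em s = MP_1a91b9_nuT.zt * MP_1a91b9_ntV.ab ^ 2 * em y := by
      rw [← em_sub, hy, em_mul, em_mul, em_pow, em_ta, em_tb]
    have e : em χ * (te * tf ^ 2) - em s * (te * tf ^ 2) = em y := by
      linear_combination te * tf ^ 2 * h5 + em y * h0
    rw [e]
    exact MP_1a91b9_ntV.em_mem _
  have hc : (tb ^ 2 ∣ χ - 1 ∧ lB 1 0 χ = 1) ∨ (tb ^ 2 ∣ χ - -1 ∧ lB 1 0 χ = -1) := by
    rw [tb2_dvd, tb2_dvd, map_sub, map_sub, map_neg, map_one, lB]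
    have h3 := mt tb_dvd.2 h.not_tb
    revert h3
    generalize rb χ = u
    revert u
    decide
  rw [MP_1a91b9_ntV.F.kp, map_div₀, map_pow, h.zt, h2]
  rcases hc with ⟨h3, h4⟩ | ⟨h3, h4⟩
  · rw [h4, key 1 (Or.inl rfl) h3, em_one]
    push_cast
    rw [one_mul, one_mul]
  · rw [h4, key (-1) (Or.inr rfl) h3, em_neg, em_one, neg_one_mul, gg_neg]
    push_cast
    rw [neg_div, neg_one_mul]

/-- the action on `√-a` -/
theorem AutV.al (h : AutV τ M χ) : τ al = (lA 0 1 χ : ℂ) * MP_1a91b9_ntV.F.al := by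
  have h2 := h.gg' (h.mem_te (n := 3) le_rfl)
  have h0 : te ^ 3 * MP_1a91b9_nuT.zt ^ 3 = 1 := by
    rw [← mul_pow, mul_comm, zt_mul_te, one_pow]
  have hc : (ta ^ 3 ∣ χ - 1 ∧ lA 0 1 χ = 1) ∨ (ta ^ 3 ∣ χ - 1 - ta ^ 2 ∧ lA 0 1 χ = -1) := by
    rw [ta3_dvd, ta3_dvd, map_sub, map_sub, map_sub, map_one, map_pow, ra_ta, lA]
    have h3 := h.ra2
    revert h3
    generalize ra χ = u
    revert u
    decide
  rw [MP_1a91b9_ntV.F.al, map_div₀, h.zt, h2]
  rcases hc with ⟨h3, h4⟩ | ⟨h3, h4⟩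
  · obtain ⟨y, hy⟩ := h3
    have h5 : em χ - 1 = MP_1a91b9_nuT.zt ^ 3 * em y := by
      rw [← em_one, ← em_sub, hy, em_mul, em_pow, em_ta]
    have e : MP_1a91b9_ntV.gg (em χ * te ^ 3) = MP_1a91b9_ntV.gg (te ^ 3) := by
      refine gg_cg ?_
      have e : em χ * te ^ 3 - te ^ 3 = em y := by
        linear_combination te ^ 3 * h5 + em y * h0
      rw [e]
      exact MP_1a91b9_ntV.em_mem _
    rw [h4, e]
    push_cast
    rw [one_mul]
  · obtain ⟨y, hy⟩ := h3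
    have h5 : em χ - 1 - MP_1a91b9_nuT.zt ^ 2 = MP_1a91b9_nuT.zt ^ 3 * em y := by
      rw [← em_one, ← em_ta, ← em_pow, ← em_sub, ← em_sub, hy, em_mul, em_pow]
    have e : MP_1a91b9_ntV.gg (em χ * te ^ 3) = MP_1a91b9_ntV.gg (te ^ 3 + te) := by
      refine gg_cg ?_
      have e : em χ * te ^ 3 - (te ^ 3 + te) = em y := by
        have h6 : te ^ 3 * MP_1a91b9_nuT.zt ^ 2 = te := by
          have e : te ^ 3 * MP_1a91b9_nuT.zt ^ 2 = te * (MP_1a91b9_nuT.zt * te) ^ 2 := by ring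
          rw [e, zt_mul_te]
          ring
        linear_combination te ^ 3 * h5 + em y * h0 + h6
      rw [e]
      exact MP_1a91b9_ntV.em_mem _
    rw [h4, e, gg_te]
    push_cast
    rw [neg_div, neg_one_mul]

/-- the action on `√ab` -/
theorem AutV.be (h : AutV τ M χ) : τ be = (lB 0 1 χ : ℂ) * MP_1a91b9_ntV.F.be := by
  have h2 := h.hh' (h.mem_tf (n := 3) le_rfl)
  have h0 : tf ^ 3 * MP_1a91b9_ntV.ab ^ 3 = 1 := by
    rw [← mul_pow, mul_comm, ab_mul_tf, one_pow]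
  have key : ∀ s : 𝓞 K, tb ^ 3 ∣ χ - s → hh (em χ * tf ^ 3) = hh (em s * tf ^ 3) := by
    intro s hd
    obtain ⟨y, hy⟩ := hd
    refine hh_cg ?_
    have h5 : em χ - em s = MP_1a91b9_ntV.ab ^ 3 * em y := by
      rw [← em_sub, hy, em_mul, em_pow, em_tb]
    have e : em χ * tf ^ 3 - em s * tf ^ 3 = em y := by
      linear_combination tf ^ 3 * h5 + em y * h0
    rw [e]
    exact MP_1a91b9_ntV.em_mem _
  have h6 : tf ^ 3 * MP_1a91b9_ntV.ab ^ 2 = tf := by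
    have e : tf ^ 3 * MP_1a91b9_ntV.ab ^ 2 = tf * (MP_1a91b9_ntV.ab * tf) ^ 2 := by ring
    rw [e, ab_mul_tf]
    ring
  have e5 : hh (em (1 + tb ^ 2 : 𝓞 K) * tf ^ 3) = -hh (tf ^ 3) := by
    rw [← hh_tf]
    congr 1
    rw [em_add, em_one, em_pow, em_tb]
    linear_combination h6
  have hc : (tb ^ 3 ∣ χ - 1 ∧ lB 0 1 χ = 1) ∨ (tb ^ 3 ∣ χ - -1 ∧ lB 0 1 χ = -1) ∨
      (tb ^ 3 ∣ χ - (1 + tb ^ 2) ∧ lB 0 1 χ = -1) ∨ (tb ^ 3 ∣ χ - -(1 + tb ^ 2) ∧ lB 0 1 χ = 1) := by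
    rw [tb3_dvd, tb3_dvd, tb3_dvd, tb3_dvd, map_sub, map_sub, map_sub, map_sub, map_neg, map_neg,
      map_add, map_one, map_pow, rb_tb, lB]
    have h3 := mt tb_dvd.2 h.not_tb
    revert h3
    generalize rb χ = u
    revert u
    decide
  rw [MP_1a91b9_ntV.F.be, map_div₀, h.ab, h2]
  rcases hc with ⟨h3, h4⟩ | ⟨h3, h4⟩ | ⟨h3, h4⟩ | ⟨h3, h4⟩
  · rw [h4, key _ h3, em_one]
    push_cast
    rw [one_mul, one_mul]
  · rw [h4, key _ h3, em_neg, em_one, neg_one_mul, hh_neg]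
    push_cast
    rw [neg_div, neg_one_mul]
  · rw [h4, key _ h3, e5]
    push_cast
    rw [neg_div, neg_one_mul]
  · rw [h4, key _ h3, em_neg, neg_mul, hh_neg, e5, neg_neg]
    push_cast
    rw [one_mul]

/-- the number attached to the units and to `a`, `ab` -/
def H0 (i j k : ZMod 2) : ℂ := kp ^ i.val * al ^ j.val * be ^ k.val

theorem H0_ne (i j k : ZMod 2) : H0 i j k ≠ 0 :=
  mul_ne_zero (mul_ne_zero (pow_ne_zero _ kp_ne) (pow_ne_zero _ al_ne)) (pow_ne_zero _ be_ne)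

theorem norm_H0 (i j k : ZMod 2) : ‖H0 i j k‖ ^ 2 = ‖zt‖ ^ j.val * ‖ab‖ ^ k.val := by
  rw [H0, norm_mul, norm_mul, norm_pow, norm_pow, norm_pow, mul_pow, mul_pow, ← pow_mul, ← pow_mul,
    ← pow_mul, mul_comm i.val, mul_comm j.val, mul_comm k.val, pow_mul, pow_mul, pow_mul, norm_kp,
    norm_al, norm_be, one_pow, one_mul]

theorem zv_cases (i : ZMod 2) : i = 0 ∨ i = 1 := by
  revert i
  decide

theorem one_val2 : (1 : ZMod 2).val = 1 := rfl

/-- the action -/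
theorem AutV.H0 (h : AutV τ M χ) (m i j k : ZMod 2) :
    τ (H0 i j k) = ((lA m j χ * lB i k χ : ℤ) : ℂ) * MP_1a91b9_ntV.F.H0 i j k := by
  have e1 : lA m j χ = (lA 0 1 χ) ^ j.val := by
    have h3 := h.ra2
    rw [lA, lA]
    revert h3
    generalize ra χ = u
    revert m j u
    decide
  have e2 : lB i k χ = (lB 1 0 χ) ^ i.val * (lB 0 1 χ) ^ k.val := by
    have h3 := mt tb_dvd.2 h.not_tb
    rw [lB, lB, lB]
    revert h3
    generalize rb χ = u
    revert i k u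
    decide
  rw [MP_1a91b9_ntV.F.H0, map_mul, map_mul, map_pow, map_pow, map_pow, h.kp, h.al, h.be, e1, e2]
  push_cast
  ring

end

end

end Pool.Agent.Lib.MP_1a91b9_ntV.F
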