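import Pool.Agent.Lib.MP_1a91b9_ntV.F.FormV
import Pool.Agent.Lib.MP_1a91b9_ntV.C.Br7
import Pool.Agent.Lib.MP_1a91b9_ntV.R.Bad7

/-!
# Form T over `ℚ(√-7)`, file BsdV: the conjecture of Birch and Swinnerton-Dyer modulo `2`

`bsdV`: a rational number `q d` for every squarefree `d`, with `BSDMod 2`, odd exactly if the criterion
holds (`d` different from `1`, `-1`).
-/

set_option autoImplicit false
set_option linter.unusedSectionVars false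

namespace Pool.Agent.Lib.MP_1a91b9_ntV.F

open NumberField IsDedekindDomain Finset Pool.Agent.Lib.MP_1a91b9_nuT
open Pool.Agent.Lib.MP_1a91b9_ntV.L (dE dE_ne WE)
open Pool.Agent.Lib.MP_1a91b9_ntV.C (tam7 nf7 prim7 good7_iff bet7)
open Pool.Agent.Lib.MP_1a91b9_ntT3.S9 (ShaP)
open Pool.Agent.Lib.MP_1a91b9_ntS (BSDMod)
open scoped Classical

noncomputable section

variable [CD] [hv : V7]

/-- the Tamagawa numbers and the scaling factors -/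
theorem tamV : TamV := fun d0 d1 d2 S => ⟨tam7 S d0 d1 d2, nf7 S d0 d1 d2⟩

/-- the curves of `D = ± 1` -/
def CrtU : Prop := ∀ d0 : ZMod 2,
  Nat.card (AddCommGroup.primaryComponent (WE (dE d0 0 0 ∅)).toAffine.Point 2) = 8 ∧
    Finite (WE (dE d0 0 0 ∅)).toAffine.Point ∧ Nat.card (ShaP 2 (WE (dE d0 0 0 ∅))) = 1

/-! ### The squarefree elements -/

theorem dE_mu (d0 d1 d2 : ZMod 2) (S : Finset Pg7) :
    dE d0 d1 d2 S = Pool.Agent.Lib.MP_1a91b9_ntR.mu pi7 (d0, ![d1, d2]) * DD S := by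
  rw [mu7, dE]

theorem dE_squarefree (d0 d1 d2 : ZMod 2) (S : Finset Pg7) : Squarefree (dE d0 d1 d2 S) := by
  rw [dE_mu]
  exact bad7.sqf _ S

theorem dE_inj {d0 d1 d2 e0 e1 e2 : ZMod 2} {S T : Finset Pg7}
    (h : dE d0 d1 d2 S = dE e0 e1 e2 T) : d0 = e0 ∧ d1 = e1 ∧ d2 = e2 ∧ S = T := by
  rw [dE_mu, dE_mu] at h
  obtain ⟨h1, h2⟩ := bad7.mul_inj (S := S) (T := T) h
  have h3 := Prod.ext_iff.1 h1
  have h4 := congrFun h3.2 0
  have h5 := congrFun h3.2 1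
  exact ⟨h3.1, h4, h5, h2⟩

theorem exists_dE {x : 𝓞 K} (h : Squarefree x) : ∃ d0 d1 d2 S, x = dE d0 d1 d2 S := by
  obtain ⟨i, S, hS⟩ := bad7.surj h
  refine ⟨i.1, i.2 0, i.2 1, S, ?_⟩
  unfold L.dE
  rw [← mu7']
  exact hS

/-- **The conjecture of Birch and Swinnerton-Dyer modulo `2`** for every squarefree `d`. -/
theorem bsdV (hS : SerV) (hO : PerV) (hd : √|(discr K : ℝ)| = √7) (hV : ValV) (hU : CrtU) :
    ∃ q : 𝓞 K → ℚ, (∀ d : 𝓞 K, Squarefree d → BSDMod 2 (WE d) (q d)) ∧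
    ∀ (d0 d1 d2 : ZMod 2) (S : Finset Pg7), ¬ (S = ∅ ∧ d1 = 0 ∧ d2 = 0) →
      (¬ (2 : ℤ) ∣ (q (dE d0 d1 d2 S)).num ↔ Cr.Good D7 S d0 d1 d2) := by
  have key : ∀ d : 𝓞 K, ∃ q : ℚ, (Squarefree d → BSDMod 2 (WE d) q) ∧
      ∀ (d0 d1 d2 : ZMod 2) (S : Finset Pg7), d = dE d0 d1 d2 S → ¬ (S = ∅ ∧ d1 = 0 ∧ d2 = 0) →
        (¬ (2 : ℤ) ∣ q.num ↔ Cr.Good D7 S d0 d1 d2) := by
    intro d
    by_cases hd' : Squarefree d
    swap
    · refine ⟨0, fun h => absurd h hd', fun d0 d1 d2 S h => ?_⟩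
      exact absurd (h ▸ dE_squarefree d0 d1 d2 S) hd'
    obtain ⟨d0, d1, d2, S, hD⟩ := exists_dE hd'
    by_cases hun : S = ∅ ∧ d1 = 0 ∧ d2 = 0
    · obtain ⟨rfl, rfl, rfl⟩ := hun
      obtain ⟨h1, h2, h3⟩ := hU d0
      obtain ⟨q, hq1, -⟩ := (formV1 hS hO hd tamV d0).bsd h1 ⟨fun _ => ⟨h2, h3⟩, fun _ => trivial⟩
      refine ⟨q, fun _ => ?_, fun e0 e1 e2 T h hn => ?_⟩
      · rw [hD]
        exact hq1
      · obtain ⟨rfl, rfl, rfl, rfl⟩ := dE_inj (hD.symm.trans h)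
        exact absurd ⟨rfl, rfl, rfl⟩ hn
    · obtain ⟨q, hq1, hq2⟩ := (formV hS hO hd tamV hV hun).bsd (prim7 hun) (good7_iff hun).symm
      refine ⟨q, fun _ => ?_, fun e0 e1 e2 T h _ => ?_⟩
      · rw [hD]
        exact hq1
      · obtain ⟨rfl, rfl, rfl, rfl⟩ := dE_inj (hD.symm.trans h)
        exact hq2
  choose q hq1 hq2 using key
  exact ⟨q, hq1, fun d0 d1 d2 S h => hq2 _ d0 d1 d2 S rfl h⟩

end

end Pool.Agent.Lib.MP_1a91b9_ntV.F
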