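import Pool.Agent.Lib.MP_1a91b9_ntV.F.PrmV
import Pool.Agent.Lib.MP_1a91b9_ntV.F.ActV

/-!
# Phase 6, form T over `ℚ(√-7)`, file PrmA: the number attached to a prime, with `AutV`
-/

set_option autoImplicit false
set_option linter.unusedSectionVars false

namespace Pool.Agent.Lib.MP_1a91b9_ntV.F

open NumberField Finset Pool.Agent.Lib.MP_1a91b9_nuT Pool.Agent.Lib.MP_1a91b9_nuT.S3
  Pool.Agent.Lib.MP_1a91b9_nuT.Ell Pool.Agent.Lib.MP_1a91b9_ntQ Pool.Agent.Lib.MP_1a91b9_ntV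

noncomputable section

variable [CD] [hv : V7]

/-- **The number attached to a prime.** -/
theorem prm_existsV (q : Pg7) : ∃ h : ℂ, h ≠ 0 ∧ (∃ n : ℕ, ‖h‖ ^ 2 * ‖em q.1‖ = 2 ^ n) ∧
    ∀ (τ : ℂ ≃+* ℂ) (M : ℕ) (χ : 𝓞 K), AutV τ M χ → q.1 ∣ (M : 𝓞 K) →
      τ h = ((ch q χ : ℤ) : ℂ) * h := by
  obtain ⟨h, h0, h1, h2⟩ := prmV_exists q
  refine ⟨h, h0, ⟨0, by rw [h1, pow_zero]⟩, fun τ M χ hA hd => ?_⟩
  have h3 : ¬ q.1 ∣ χ := fun h4 => q.prime.not_isUnit (hA.cop.isUnit_of_dvd' h4 hd)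
  have h5 := h2 τ χ 0 M hA.pos hd (fun a => by rw [sg2_zero, Int.cast_one, one_mul, hA.gg a]) h3
  rwa [mul_zero, sg2_zero, Int.cast_one, one_mul] at h5

end

end Pool.Agent.Lib.MP_1a91b9_ntV.F
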