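import Pool.Agent.Lib.MP_1a91b9_ntV.F.RatV
import Pool.Agent.Lib.MP_1a91b9_ntV.F.PrmA
import Pool.Agent.Lib.MP_1a91b9_ntV.A.Rec7
import Pool.Agent.Lib.MP_1a91b9_ntW.F.FormG

/-!
# Form T over `ℚ(√-7)`, file FormV: the formula modulo `2`

`formV`: for every `D = dE d0 d1 d2 S` different from `1`, `-1`: `g(1) √7 / Ω = q T / 16`, `q` with odd
denominator, odd exactly if `Cr.Good D7 S d0 d1 d2`; `formV1`: `D = ± 1`, `c = 8`.
-/

set_option autoImplicit false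
set_option linter.unusedSectionVars false

namespace Pool.Agent.Lib.MP_1a91b9_ntV.F

open NumberField IsDedekindDomain Finset Pool.Agent.Lib.MP_1a91b9_nuT
  Pool.Agent.Lib.MP_1a91b9_nuT.S3 Pool.Agent.Lib.MP_1a91b9_nuT.Ell
open Pool.Agent.Lib.MP_1a91b9_ntQ (em em_add em_mul em_pow em_sub em_neg em_zero em_one em_ne em_prod
  em_ofNat em_intCast em_natCast em_inj)
open Pool.Agent.Lib.MP_1a91b9_ntV.L (dE dE_ne WE)
open Pool.Agent.Lib.MP_1a91b9_ntW.F (form_gen FormN v2_odd v2_int v2_pow)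
open Pool.Agent.Lib.MP_1a91b9_ntT.S9 (tam normFactor period minChange)
open scoped Classical

noncomputable section

variable [CD] [hv : V7]

theorem prmV : PrmV := prm_existsV

/-! ### The normalised value -/

/-- the exponents of the conductor -/
def cA (d0 d1 d2 : ZMod 2) : ℕ := ce (1 + d0 + d2) d1

/-- the exponents of the conductor -/
def cB (d0 d1 d2 : ZMod 2) (S : Finset Pg7) : ℕ := ce (d0 + d1 + AA S) d2

/-- the number of the bad places over `2` -/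
def betV (d0 d1 d2 : ZMod 2) (S : Finset Pg7) : ℕ :=
  (if cA d0 d1 d2 = 0 then 0 else 1) + if cB d0 d1 d2 S = 0 then 0 else 1

/-- the normalised value -/
def xV (d0 d1 d2 : ZMod 2) (S : Finset Pg7) : ℝ :=
  ‖LS d0 d1 d2 S‖ ^ 2 * ‖zt‖ ^ d1.val * ‖ab‖ ^ d2.val /
    2 ^ (2 * S.card + betV d0 d1 d2 S + cA d0 d1 d2 + cB d0 d1 d2 S)

theorem zt_ab_norm : ‖ab‖ = ‖zt‖ := by
  have h : ab = (starRingEnd ℂ) zt := by
    rw [S3.conj_zt, hv.tr, ab]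
    push_cast
    ring
  rw [h, Complex.norm_conj]

theorem norm_zt_sq : ‖zt‖ ^ 2 = 2 := by
  have h := congrArg norm zt_mul_ab
  rw [norm_mul, zt_ab_norm] at h
  rw [pow_two, h]
  norm_num

theorem norm_ab_sq : ‖ab‖ ^ 2 = 2 := by rw [zt_ab_norm, norm_zt_sq]

theorem norm_cf (d0 d1 d2 : ZMod 2) (S : Finset Pg7) :
    ‖em (cf d0 d1 d2 S)‖ ^ 2 = 2 ^ (cA d0 d1 d2 + cB d0 d1 d2 S) * ‖em (DD S)‖ ^ 2 := by
  rw [cf, em_mul, em_mul, em_pow, em_pow, em_ta, em_tb, norm_mul, norm_mul, norm_pow, norm_pow,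
    mul_pow, mul_pow, ← pow_mul, ← pow_mul, mul_comm (ce _ _) 2, mul_comm (ce _ _) 2, pow_mul,
    pow_mul, norm_zt_sq, norm_ab_sq, pow_add, cA, cB]

theorem odd_norm (S : Finset Pg7) : Odd (Algebra.norm ℤ (DD S)) := by
  rw [← Int.not_even_iff_odd]
  rintro ⟨m, hm⟩
  have h1 := norm_mod (DD S)
  rw [hm] at h1
  push_cast at h1
  have h2 := mt ta_dvd.2 (DD_ta S)
  have h3 := mt tb_dvd.2 (DD_tb S)
  revert h1 h2 h3
  generalize ra (DD S) = u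
  generalize rb (DD S) = w
  generalize (m : ZMod 8) = t
  revert u w t
  decide

theorem v_DD {B : ValuationSubring ℂ} (hB : (2 : ℂ)⁻¹ ∉ B) (S : Finset Pg7) :
    B.valuation ((‖em (DD S)‖ : ℝ) : ℂ) = 1 := by
  refine v2_pow (n := 2) (by norm_num) ?_
  rw [← Complex.ofReal_pow, ← norm_em, Complex.ofReal_intCast, v2_int, v2_odd hB]
  exact Int.natAbs_odd.2 (odd_norm S)

/-! ### The inputs -/

/-- the L-series: continuation and value at `1` -/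
def SerV : Prop := ∀ (d0 d1 d2 : ZMod 2) (S : Finset Pg7), ∃ g : ℂ → ℂ, Differentiable ℂ g ∧
  (∀ s : ℂ, 3 / 2 < s.re → g s = (WE (dE d0 d1 d2 S)).LSeries s) ∧
    g 1 = ((‖O7‖ ^ 2 * ‖LS d0 d1 d2 S‖ ^ 2 / (4 * ‖em (cf d0 d1 d2 S)‖ ^ 2) : ℝ) : ℂ)

/-- the archimedean part of the period -/
def PerV : Prop := ∀ D : 𝓞 K, D ≠ 0 →
  ∏ v : InfinitePlace K, Pool.Agent.Lib.MP_1a91b9_ntT.Per.perAt (WE D) v =
    √7 * ‖O7‖ ^ 2 / ‖em D‖

/-- the Tamagawa numbers and the scaling factors -/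
def TamV : Prop := ∀ (d0 d1 d2 : ZMod 2) (S : Finset Pg7),
  ∏ᶠ v : HeightOneSpectrum (𝓞 K), tam (WE (dE d0 d1 d2 S)) v = 4 ^ (S.card + betV d0 d1 d2 S) ∧
    (∏ᶠ v : HeightOneSpectrum (𝓞 K), normFactor (WE (dE d0 d1 d2 S)) v) * 2 ^ betV d0 d1 d2 S = 4

/-- the valuations of the normalised value -/
def ValV : Prop := ∀ (d0 d1 d2 : ZMod 2) (S : Finset Pg7), ¬ (S = ∅ ∧ d1 = 0 ∧ d2 = 0) →
  ∀ B : ValuationSubring ℂ, (2 : ℂ)⁻¹ ∉ B →
    (Cr.Good D7 S d0 d1 d2 → B.valuation ((xV d0 d1 d2 S : ℝ) : ℂ) = 1) ∧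
      (¬ Cr.Good D7 S d0 d1 d2 → B.valuation ((xV d0 d1 d2 S : ℝ) : ℂ) < 1)

/-! ### The formula -/

/-- **The formula modulo `2`**, general form. -/
theorem formV_gen (hS : SerV) (hO : PerV) (hd : √|(discr K : ℝ)| = √7) (hT : TamV)
    (d0 d1 d2 : ZMod 2) (S : Finset Pg7) {c : ℕ} (hc : c ≠ 0) {b : Prop}
    (h1 : b → ∀ B : ValuationSubring ℂ, (2 : ℂ)⁻¹ ∉ B →
      B.valuation ((((c : ℝ) ^ 2 / 16 * xV d0 d1 d2 S : ℝ)) : ℂ) = 1)
    (h0 : ¬ b → ∀ B : ValuationSubring ℂ, (2 : ℂ)⁻¹ ∉ B →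
      B.valuation ((((c : ℝ) ^ 2 / 16 * xV d0 d1 d2 S : ℝ)) : ℂ) < 1) :
    FormN (WE (dE d0 d1 d2 S)) c b := by
  obtain ⟨g, hgd, hgs, hg⟩ := hS d0 d1 d2 S
  refine ⟨g, hgd, hgs, ?_⟩
  obtain ⟨hT1, hT2⟩ := hT d0 d1 d2 S
  rw [hT1]
  have hD0 := dE_ne d0 d1 d2 S
  have hdn : ‖em (dE d0 d1 d2 S)‖ ≠ 0 := norm_ne_zero_iff.2 (em_ne hD0)
  have hO7 : ‖O7‖ ≠ 0 := norm_ne_zero_iff.2 O7_ne
  have hDD : ‖em (DD S)‖ ≠ 0 := norm_ne_zero_iff.2 (em_ne (DD_ne S))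
  have h7 : (√7 : ℝ) ≠ 0 := by positivity
  have hcr : (c : ℝ) ≠ 0 := by exact_mod_cast hc
  have hcf := norm_cf d0 d1 d2 S
  have hdE := norm_dE d0 d1 d2 S
  have hPer := hO (dE d0 d1 d2 S) hD0
  have hper : period (WE (dE d0 d1 d2 S)) =
      (4 / 2 ^ betV d0 d1 d2 S) * (√7 * ‖O7‖ ^ 2 / ‖em (dE d0 d1 d2 S)‖) := by
    rw [← hPer]
    have h2 : (∏ᶠ v : HeightOneSpectrum (𝓞 K), normFactor (WE (dE d0 d1 d2 S)) v) =
        4 / 2 ^ betV d0 d1 d2 S := by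
      rw [eq_div_iff (by positivity), hT2]
    rw [← h2]
    rfl
  obtain ⟨n, hn⟩ : ∃ n, n = S.card := ⟨_, rfl⟩
  obtain ⟨β, hβ⟩ : ∃ β, β = betV d0 d1 d2 S := ⟨_, rfl⟩
  obtain ⟨γ, hγ⟩ : ∃ γ, γ = cA d0 d1 d2 + cB d0 d1 d2 S := ⟨_, rfl⟩
  obtain ⟨L, hL⟩ : ∃ L, L = ‖LS d0 d1 d2 S‖ ^ 2 := ⟨_, rfl⟩
  obtain ⟨Z, hZ⟩ : ∃ Z, Z = ‖zt‖ ^ d1.val * ‖ab‖ ^ d2.val := ⟨_, rfl⟩
  obtain ⟨δ, hδ⟩ : ∃ δ, δ = ‖em (DD S)‖ := ⟨_, rfl⟩
  have hx : xV d0 d1 d2 S = L * Z / 2 ^ (2 * n + β + γ) := by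
    rw [xV, hL, hZ, hn, hβ, hγ, ← mul_assoc]
    congr 2
    ring
  rw [← hγ, ← hδ] at hcf
  rw [← hZ, ← hδ] at hdE
  rw [← hL, hcf] at hg
  rw [← hβ, hdE] at hper
  rw [hdE] at hPer hdn
  rw [← hδ] at hDD
  rw [← hn, ← hβ]
  have hZ0 : Z ≠ 0 := left_ne_zero_of_mul hdn
  refine form_gen (x := ((c : ℝ) ^ 2 / 16 * xV d0 d1 d2 S) / δ) (by positivity) hc ?_ ?_ ?_
    (fun hb B hB => ?_) fun hb B hB => ?_
  · rw [hPer]
    exact div_ne_zero (mul_ne_zero h7 (pow_ne_zero 2 hO7)) hdn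
  · rw [hg, hd, hper, hx, ← Complex.ofReal_mul, ← Complex.ofReal_div]
    congr 1
    have e4 : ((4 ^ (n + β) : ℕ) : ℝ) = 2 ^ (2 * n + β) * 2 ^ β := by
      push_cast
      rw [show (4 : ℝ) = 2 ^ 2 by norm_num, ← pow_mul, ← pow_add]
      congr 1
      ring
    rw [e4, pow_add (2 : ℝ) (2 * n + β) γ]
    field_simp
    norm_num
  · obtain ⟨q, hq⟩ := ratV_of prmV d0 d1 d2 S
    refine ⟨q / (4 * (2 ^ γ * (Algebra.norm ℤ (DD S) : ℤ))), ?_⟩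
    rw [← hL, hdE] at hq
    have hN : (((Algebra.norm ℤ (DD S) : ℤ)) : ℝ) = δ ^ 2 := by rw [hδ, norm_em]
    rw [hg, hd, hPer, ← Complex.ofReal_ratCast, ← Complex.ofReal_mul, ← Complex.ofReal_mul]
    congr 1
    push_cast
    rw [hN, ← hq]
    field_simp
  · rw [Complex.ofReal_div, map_div₀, h1 hb B hB, hδ, v_DD hB, div_one]
  · rw [Complex.ofReal_div, map_div₀, hδ, v_DD hB, div_one]
    exact h0 hb B hB

/-- **The formula modulo `2`**, `D` different from `1`, `-1`. -/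
theorem formV (hS : SerV) (hO : PerV) (hd : √|(discr K : ℝ)| = √7) (hT : TamV) (hV : ValV)
    {d0 d1 d2 : ZMod 2} {S : Finset Pg7} (h : ¬ (S = ∅ ∧ d1 = 0 ∧ d2 = 0)) :
    FormN (WE (dE d0 d1 d2 S)) 4 (Cr.Good D7 S d0 d1 d2) := by
  have e : ((4 : ℕ) : ℝ) ^ 2 / 16 * xV d0 d1 d2 S = xV d0 d1 d2 S := by
    push_cast
    ring
  refine formV_gen hS hO hd hT d0 d1 d2 S (by norm_num) (fun hb B hB => ?_) fun hb B hB => ?_
  · rw [e]
    exact (hV d0 d1 d2 S h B hB).1 hb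
  · rw [e]
    exact (hV d0 d1 d2 S h B hB).2 hb

/-! ### `D = ± 1` -/

theorem ee_te2_sq : ‖ee (te ^ 2)‖ ^ 2 = 1 / 2 := by
  rw [ee_te2, norm_div, norm_one, div_pow, one_pow, norm_ab_sq]

theorem ee_tf2_sq : ‖ee (tf ^ 2)‖ ^ 2 = 1 / 2 := by
  have h1 := ee_two_b (tf ^ 2)
  rw [ab_tf2, ee_tor two_tf_mem, mul_zero] at h1
  have h2 : hh (tf ^ 2) ^ 2 = ab ^ 2 * xx (ab * tf ^ 2) := by
    refine hh_sq ?_
    rw [ab_tf2]
    exact tf_notMem
  rw [ab_tf2, xx_tf] at h2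
  have h3 : (2 * ee (tf ^ 2)) ^ 2 = -ab ^ 2 := by
    have e : 2 * ee (tf ^ 2) = -hh (tf ^ 2) := by linear_combination h1
    rw [e]
    linear_combination h2
  have h4 := congrArg norm h3
  rw [norm_pow, norm_mul, norm_neg, norm_pow, norm_ab_sq, mul_pow] at h4
  have h5 : ‖(2 : ℂ)‖ = 2 := by norm_num
  rw [h5] at h4
  linarith

theorem SM_two {M : 𝓞 K} (hM : M ≠ 0) {F : 𝓞 K → ℂ} (hF : Pd M F)
    (h1 : ∀ x, F x ≠ 0 → M ∣ x - 1 ∨ M ∣ x + 1) (h2 : ¬ M ∣ (2 : 𝓞 K)) :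
    SM M F = F 1 + F (-1) := by
  have h3 := SM_sup (a := fun b : Bool => if b then (1 : 𝓞 K) else -1) hM hF (fun x hx => by
    rcases h1 x hx with h | h
    · exact ⟨true, by simpa using h⟩
    · exact ⟨false, by simpa using h⟩) (fun i j h => by
    rcases i with _ | _ <;> rcases j with _ | _
    · rfl
    · exfalso
      apply h2
      have h4 := (dvd_neg.2 h)
      have e : -(((if false = true then (1 : 𝓞 K) else -1)) - (if true = true then (1 : 𝓞 K) else -1)) = 2 := by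
        norm_num
      rwa [e] at h4
    · exfalso
      apply h2
      have e : (((if true = true then (1 : 𝓞 K) else -1)) - (if false = true then (1 : 𝓞 K) else -1)) = 2 := by
        norm_num
      rwa [e] at h
    · rfl)
  rw [h3]
  simp

theorem LS_unit (d0 : ZMod 2) : ‖LS d0 0 0 ∅‖ ^ 2 = 2 := by
  have hA0 : AA (∅ : Finset Pg7) = 0 := rfl
  have hz : ∀ i : ZMod 2, i = 0 ∨ i = 1 := by decide
  have hpd := SE_pd LP_ee (cf_ne d0 0 0 ∅) (ph_pd d0 0 0 ∅)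
  rcases hz d0 with rfl | rfl
  · have hcf : cf 0 0 0 (∅ : Finset Pg7) = ta ^ 2 := by
      rw [cf, hA0, DD, prod_empty, mul_one]
      have h1 : ce (1 + 0 + 0) 0 = 2 := by decide
      have h2 : ce (0 + 0 + 0) 0 = 0 := by decide
      rw [h1, h2, pow_zero, mul_one]
    have hph : ∀ x : 𝓞 K, ph 0 0 0 ∅ x = lA 1 0 x := by
      intro x
      rw [ph, hA0, chS_empty, mul_one, add_zero, add_zero, add_zero, add_zero, lB, lc_zero, mul_one]
    have h2 : ¬ ta ^ 2 ∣ (2 : 𝓞 K) := by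
      intro h
      have h3 := ta2_dvd.1 h
      rw [map_ofNat] at h3
      exact absurd h3 (by decide)
    rw [hcf] at hpd
    have e1 : LS 0 0 0 ∅ = 2 * ee (te ^ 2) := by
      rw [LS, hcf, SE, SM_two (pow_ne_zero _ ta_ne) hpd (fun x hx => ?_) h2]
      · have e1 : em (1 : 𝓞 K) / em (ta ^ 2 : 𝓞 K) = te ^ 2 := (te_pow 2).symm
        have e2 : em (-1 : 𝓞 K) / em (ta ^ 2 : 𝓞 K) = -te ^ 2 := by
          rw [em_neg, neg_div, e1]
        rw [e1, e2, ee_neg, ph_one, ph_neg_one]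
        push_cast
        ring
      · have h4 : ph 0 0 0 ∅ x ≠ 0 := by
          intro h
          apply hx
          rw [h, Int.cast_zero, zero_mul]
        rw [hph, lA] at h4
        rw [ta2_dvd, ta2_dvd, map_sub, map_add, map_one]
        revert h4
        generalize ra x = u
        revert u
        decide
    rw [e1, norm_mul, mul_pow, ee_te2_sq]
    norm_num
  · have hcf : cf 1 0 0 (∅ : Finset Pg7) = tb ^ 2 := by
      rw [cf, hA0, DD, prod_empty, mul_one]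
      have h1 : ce (1 + 1 + 0) 0 = 0 := by decide
      have h2 : ce (1 + 0 + 0) 0 = 2 := by decide
      rw [h1, h2, pow_zero, one_mul]
    have hph : ∀ x : 𝓞 K, ph 1 0 0 ∅ x = lB 1 0 x := by
      intro x
      have h1 : (1 : ZMod 2) + 1 + 0 = 0 := by decide
      rw [ph, hA0, chS_empty, mul_one, h1, add_zero, add_zero, lA, lc_zero, one_mul]
    have h2 : ¬ tb ^ 2 ∣ (2 : 𝓞 K) := by
      intro h
      have h3 := tb2_dvd.1 h
      rw [map_ofNat] at h3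
      exact absurd h3 (by decide)
    rw [hcf] at hpd
    have e1 : LS 1 0 0 ∅ = 2 * ee (tf ^ 2) := by
      rw [LS, hcf, SE, SM_two (pow_ne_zero _ tb_ne) hpd (fun x hx => ?_) h2]
      · have e1 : em (1 : 𝓞 K) / em (tb ^ 2 : 𝓞 K) = tf ^ 2 := (tf_pow 2).symm
        have e2 : em (-1 : 𝓞 K) / em (tb ^ 2 : 𝓞 K) = -tf ^ 2 := by
          rw [em_neg, neg_div, e1]
        rw [e1, e2, ee_neg, ph_one, ph_neg_one]
        push_cast
        ring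
      · have h4 : ph 1 0 0 ∅ x ≠ 0 := by
          intro h
          apply hx
          rw [h, Int.cast_zero, zero_mul]
        rw [hph, lB] at h4
        rw [tb2_dvd, tb2_dvd, map_sub, map_add, map_one]
        revert h4
        generalize rb x = u
        revert u
        decide
    rw [e1, norm_mul, mul_pow, ee_tf2_sq]
    norm_num

theorem xV_unit (d0 : ZMod 2) : xV d0 0 0 ∅ = 1 / 4 := by
  have hA0 : AA (∅ : Finset Pg7) = 0 := rfl
  have e : betV d0 0 0 ∅ + cA d0 0 0 + cB d0 0 0 ∅ = 3 := by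
    rw [betV, cA, cB, hA0]
    revert d0
    decide
  rw [xV, LS_unit, ZMod.val_zero, card_empty]
  have e2 : 2 * 0 + betV d0 0 0 ∅ + cA d0 0 0 + cB d0 0 0 ∅ = 3 := by omega
  rw [e2]
  norm_num

/-- **The formula modulo `2`**, `D = ± 1`. -/
theorem formV1 (hS : SerV) (hO : PerV) (hd : √|(discr K : ℝ)| = √7) (hT : TamV) (d0 : ZMod 2) :
    FormN (WE (dE d0 0 0 ∅)) 8 True := by
  have e : ((8 : ℕ) : ℝ) ^ 2 / 16 * xV d0 0 0 ∅ = 1 := by
    rw [xV_unit]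
    push_cast
    norm_num
  refine formV_gen hS hO hd hT d0 0 0 ∅ (by norm_num) (fun hb B hB => ?_) fun hb B hB => ?_
  · rw [e, Complex.ofReal_one, map_one]
  · exact absurd trivial hb

end

end Pool.Agent.Lib.MP_1a91b9_ntV.F
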