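import Pool.Agent.Lib.MP_1a91b9_ntV.A.Ell7
import Pool.Agent.Lib.MP_1a91b9_ntV.A.Ph7
import Pool.Agent.Lib.MP_1a91b9_ntW.F.PrdT
import Pool.Agent.Lib.MP_1a91b9_ntW.F.Half

/-!
# Phase 6, form T over `ℚ(√-7)`, file PrmV: the number attached to a prime

`prm_pre`: the product of the values of `gg = yy / xx` over a half system modulo `q`.
-/

set_option autoImplicit false
set_option linter.unusedSectionVars false

namespace Pool.Agent.Lib.MP_1a91b9_ntV.F

open NumberField Finset Pool.Agent.Lib.MP_1a91b9_nuT Pool.Agent.Lib.MP_1a91b9_nuT.S3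
  Pool.Agent.Lib.MP_1a91b9_nuT.Ell Pool.Agent.Lib.MP_1a91b9_ntQ Pool.Agent.Lib.MP_1a91b9_ntV
open Pool.Agent.Lib.MP_1a91b9_ntW.F (HalfSys Pq exists_half gauss_half norm_prodT)

noncomputable section

/-! ### Half systems -/

section gen

variable {O : Type} [CommRing O] [IsDomain O]

/-- the representatives of a half system -/
def rhoG {ι : Type} (c : ι → O) : Option (ι ⊕ ι) → O
  | none => 0
  | some (Sum.inl i) => c i
  | some (Sum.inr i) => -c i

theorem rhoG_inj {q : O} (hq : Pq q) {ι : Type} {c : ι → O} (h : HalfSys q c) :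
    ∀ i j, q ∣ rhoG c i - rhoG c j → i = j := by
  have htwo : ∀ a : O, q ∣ 2 * a → q ∣ a := fun a ha =>
    (hq.pr.dvd_or_dvd ha).resolve_left hq.two
  rintro (_ | x | x) (_ | y | y) hxy
  · rfl
  · have h1 : q ∣ c y := by
      have e : rhoG c none - rhoG c (some (Sum.inl y)) = -c y := by
        show (0 : O) - c y = -c y
        ring
      rw [e, dvd_neg] at hxy
      exact hxy
    exact absurd h1 (h.nz y)
  · have h1 : q ∣ c y := by
      have e : rhoG c none - rhoG c (some (Sum.inr y)) = c y := by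
        show (0 : O) - -c y = c y
        ring
      rw [e] at hxy
      exact hxy
    exact absurd h1 (h.nz y)
  · have h1 : q ∣ c x := by
      have e : rhoG c (some (Sum.inl x)) - rhoG c none = c x := by
        show c x - (0 : O) = c x
        ring
      rw [e] at hxy
      exact hxy
    exact absurd h1 (h.nz x)
  · rw [h.inj x y (Or.inl hxy)]
  · exfalso
    have h1 : q ∣ c x + c y := by
      have e : rhoG c (some (Sum.inl x)) - rhoG c (some (Sum.inr y)) = c x + c y := by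
        show c x - -c y = c x + c y
        ring
      rw [e] at hxy
      exact hxy
    have h2 := h.inj x y (Or.inr h1)
    subst h2
    exact h.nz x (htwo _ (by rwa [two_mul (c x)]))
  · have h1 : q ∣ c x := by
      have e : rhoG c (some (Sum.inr x)) - rhoG c none = -c x := by
        show -c x - (0 : O) = -c x
        ring
      rw [e, dvd_neg] at hxy
      exact hxy
    exact absurd h1 (h.nz x)
  · exfalso
    have h1 : q ∣ c x + c y := by
      have e : rhoG c (some (Sum.inr x)) - rhoG c (some (Sum.inl y)) = -(c x + c y) := by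
        show -c x - c y = -(c x + c y)
        ring
      rw [e, dvd_neg] at hxy
      exact hxy
    have h2 := h.inj x y (Or.inr h1)
    subst h2
    exact h.nz x (htwo _ (by rwa [two_mul (c x)]))
  · have h1 : q ∣ c x - c y := by
      have e : rhoG c (some (Sum.inr x)) - rhoG c (some (Sum.inr y)) = -(c x - c y) := by
        show -c x - -c y = -(c x - c y)
        ring
      rw [e, dvd_neg] at hxy
      exact hxy
    rw [h.inj x y (Or.inl h1)]

theorem rhoG_reps {q : O} (hq : Pq q) {ι : Type} {c : ι → O} (h : HalfSys q c) (x : O) :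
    ∃! i, q ∣ x - rhoG c i := by
  have hex : ∃ i, q ∣ x - rhoG c i := by
    by_cases hx : q ∣ x
    · refine ⟨none, ?_⟩
      have e : x - rhoG c none = x := by
        show x - 0 = x
        ring
      rwa [e]
    · obtain ⟨i, hi | hi⟩ := h.ex x hx
      · exact ⟨some (Sum.inl i), hi⟩
      · refine ⟨some (Sum.inr i), ?_⟩
        have e : x - rhoG c (some (Sum.inr i)) = x + c i := by
          show x - -c i = x + c i
          ring
        rwa [e]
  obtain ⟨i, hi⟩ := hex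
  refine ⟨i, hi, fun j hj => rhoG_inj hq h j i ?_⟩
  have e : rhoG c j - rhoG c i = (x - rhoG c i) - (x - rhoG c j) := by ring
  rw [e]
  exact dvd_sub hi hj

/-- the multiples of a half system -/
theorem halfG_smul {q : O} (hq : Prime q) {ι : Type} {c : ι → O} (h : HalfSys q c) {u : O}
    (hcop : IsCoprime q u) : HalfSys q (fun i => u * c i) := by
  have hu : ¬ q ∣ u := by
    intro hd
    exact hq.not_isUnit (hcop.isUnit_of_dvd' (dvd_refl q) hd)
  obtain ⟨a, b, hab⟩ := hcop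
  refine ⟨fun i hi => ?_, fun x hx => ?_, fun i j hij => ?_⟩
  · exact (hq.dvd_or_dvd hi).elim hu (h.nz i)
  · have hbx : ¬ q ∣ b * x := by
      intro hd
      apply hx
      have e : x = (a * x) * q + u * (b * x) := by linear_combination (-x) * hab
      rw [e]
      exact dvd_add (Dvd.intro_left _ rfl) (hd.mul_left u)
    obtain ⟨i, hi | hi⟩ := h.ex _ hbx
    · refine ⟨i, Or.inl ?_⟩
      have e : x - u * c i = (a * x) * q + u * (b * x - c i) := by
        linear_combination (-x) * hab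
      rw [e]
      exact dvd_add (Dvd.intro_left _ rfl) (hi.mul_left u)
    · refine ⟨i, Or.inr ?_⟩
      have e : x + u * c i = (a * x) * q + u * (b * x + c i) := by
        linear_combination (-x) * hab
      rw [e]
      exact dvd_add (Dvd.intro_left _ rfl) (hi.mul_left u)
  · rcases hij with h1 | h1
    · rw [← mul_sub] at h1
      exact h.inj i j (Or.inl ((hq.dvd_or_dvd h1).resolve_left hu))
    · rw [← mul_add] at h1
      exact h.inj i j (Or.inr ((hq.dvd_or_dvd h1).resolve_left hu))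

end gen

variable [CD] [hv : V7]

theorem pqV (q : Pg7) : Pq q.1 :=
  ⟨q.prime, q.not_two, Ideal.finiteQuotientOfFreeOfNeBot _ (by
    rw [Ne, Ideal.span_singleton_eq_bot]
    exact q.prime.ne_zero)⟩

theorem tb_dvd_sub_one (q : Pg7) : (tb : 𝓞 K) ∣ q.1 - 1 := by
  rw [tb_dvd, map_sub, map_one]
  linear_combination odd_rb q.not_tb

theorem tf_oddV (q : Pg7) : (em q.1 - 1) * tf ∈ PP.lattice := by
  obtain ⟨b, hb⟩ := tb_dvd_sub_one q
  have e : (em q.1 - 1) * tf = em b := by
    have h1 : (em q.1 : ℂ) - 1 = (em (q.1 - 1) : ℂ) := by rw [em_sub, em_one]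
    rw [h1, hb, em_mul, em_tb]
    linear_combination em b * ab_mul_tf
  rw [e]
  exact em_mem b

private theorem em_dvdP {a b : 𝓞 K} (hb : b ≠ 0) (h : em a / em b ∈ PP.lattice) : b ∣ a := by
  obtain ⟨c, hc⟩ := S3.mem_PP_iff.1 h
  refine ⟨c, em_inj ?_⟩
  have hc' : em c = em a / em b := hc
  rw [em_mul, hc', mul_div_cancel₀ _ (em_ne hb)]

private theorem em_latP {a b c : 𝓞 K} (hc : c ≠ 0) (h : c ∣ a - b) :
    em a / em c - em b / em c ∈ PP.lattice := by
  obtain ⟨d, hd⟩ := h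
  have e : em a / em c - em b / em c = em d := by
    rw [← sub_div, ← em_sub, hd, em_mul, mul_div_cancel_left₀ _ (em_ne hc)]
  rw [e]
  exact em_mem d

theorem two_em_notMemV {q a : 𝓞 K} (hq : Prime q) (h2 : ¬ q ∣ 2) (ha : ¬ q ∣ a) :
    2 * (em a / em q) ∉ PP.lattice := by
  intro h
  have e : (2 : ℂ) * (em a / em q) = (em (2 * a) : ℂ) / em q := by
    rw [em_mul, em_ofNat 2, mul_div_assoc]
  rw [e] at h
  rcases hq.dvd_or_dvd (em_dvdP hq.ne_zero h) with h1 | h1
  · exact h2 h1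
  · exact ha h1

theorem norm_zt_sqV : ‖zt‖ ^ 2 = 2 := by
  have h : (starRingEnd ℂ) zt = ab := by
    rw [S3.conj_zt, hv.tr, ab]
    push_cast
    rfl
  have h1 := Complex.mul_conj zt
  rw [h, zt_mul_ab] at h1
  rw [← Complex.normSq_eq_norm_sq]
  exact_mod_cast h1.symm

/-- the scale -/
theorem X_diffV (z : ℂ) : X z - X tf = (cu * sg) ^ 2 * XX z := by
  have h := P_tf' sg_sq
  have hO := Om_ne_zero
  have hc := cu_ne
  have hs := sg_ne' sg_sq
  have h1 : PP.weierstrassP tf = -ab * (Om * cu * sg) ^ 2 := by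
    rw [← h, div_mul_cancel₀ _ (pow_ne_zero 2 (O_ne' sg_sq))]
  have h2 : X z = PP.weierstrassP z / Om ^ 2 := rfl
  have h3 : X tf = PP.weierstrassP tf / Om ^ 2 := rfl
  rw [h2, h3, h1, XX, xx, O7, ab]
  field_simp
  ring

/-- the product of the values of `gg` over a half system -/
theorem norm_halfV (q : Pg7) {ι : Type} [Fintype ι] {c : ι → 𝓞 K} (h : HalfSys q.1 c) :
    ‖∏ i, gg (em (c i) / em q.1)‖ ^ 2 * ‖em q.1‖ = 4 ^ Fintype.card ι := by
  classical
  have hq0 := q.prime.ne_zero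
  have hnl : ∀ a : 𝓞 K, ¬ q.1 ∣ a → 2 * (em a / em q.1) ∉ PP.lattice := fun a ha =>
    two_em_notMemV q.prime q.not_two ha
  have hH := halfG_smul q.prime h q.cop_ta
  obtain ⟨κ, hκ⟩ : ∃ κ, κ = cu * sg := ⟨_, rfl⟩
  have hκ0 : κ ≠ 0 := by
    rw [hκ]
    exact mul_ne_zero cu_ne (sg_ne' sg_sq)
  have hk : ∀ z, 2 * z ∉ PP.lattice → (X (z + tf) - X tf) * (X z - X tf) = κ ^ 4 * zt ^ 4 := by
    intro z hz
    rw [X_diffV, X_diffV, ← XX_tr hz, hκ]
    ring
  have h1 := norm_prodT (k := κ ^ 4 * zt ^ 4) two_tf_mem tf_notMem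
    (mul_ne_zero (pow_ne_zero 4 hκ0) (pow_ne_zero 4 zt_ne0)) hk
    (ρ := rhoG fun i => ta * c i) hq0 (tf_oddV q) (rhoG_reps (pqV q) hH) (i0 := none) rfl
  have herase : (Finset.univ.erase none : Finset (Option (ι ⊕ ι))) =
      Finset.univ.map Function.Embedding.some := by
    ext x
    cases x <;> simp
  have hcard : Fintype.card (Option (ι ⊕ ι)) - 1 = 2 * Fintype.card ι := by
    rw [Fintype.card_option, Fintype.card_sum, Nat.add_sub_cancel, two_mul]
  rw [hcard, herase, Finset.prod_map, _root_.norm_prod] at h1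
  obtain ⟨L, hL⟩ : ∃ L, L = ‖κ‖ := ⟨_, rfl⟩
  have hL0 : 0 < L := by
    rw [hL]
    exact norm_pos_iff.2 hκ0
  have hv2 : ∀ i : ι, ‖X (em (ta * c i) / em q.1) - X tf‖ =
      L ^ 2 / 2 * ‖gg (em (c i) / em q.1)‖ ^ 2 := by
    intro i
    have hz := hnl _ (h.nz i)
    have h4 := gg_sq (nm_2 hz).1
    have h5 : zt * (em (c i) / em q.1) = em (ta * c i) / em q.1 := by
      rw [em_mul, em_ta, mul_div_assoc]
    rw [h5] at h4
    rw [X_diffV, ← hκ, norm_mul, norm_pow, ← hL, ← norm_pow (gg _), h4, norm_mul, norm_pow,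
      norm_zt_sqV]
    ring
  have hprod : ∏ p : ι ⊕ ι, ‖X (em (rhoG (fun i => ta * c i) (Function.Embedding.some p)) /
      em q.1) - X tf‖ = (L ^ 2 / 2) ^ (2 * Fintype.card ι) *
        ‖∏ i, gg (em (c i) / em q.1)‖ ^ 4 := by
    rw [Fintype.prod_sum_type]
    have e1 : ∀ i : ι, ‖X (em (rhoG (fun i => ta * c i) (Function.Embedding.some (Sum.inl i))) /
        em q.1) - X tf‖ = L ^ 2 / 2 * ‖gg (em (c i) / em q.1)‖ ^ 2 := fun i => hv2 i
    have e2 : ∀ i : ι, ‖X (em (rhoG (fun i => ta * c i) (Function.Embedding.some (Sum.inr i))) /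
        em q.1) - X tf‖ = L ^ 2 / 2 * ‖gg (em (c i) / em q.1)‖ ^ 2 := by
      intro i
      rw [← hv2 i]
      have e3 : em (rhoG (fun i => ta * c i) (Function.Embedding.some (Sum.inr i))) / em q.1 =
          -(em (ta * c i) / em q.1) := by
        have e4 : em (-(ta * c i)) = -em (ta * c i) := em_neg _
        show em (-(ta * c i)) / em q.1 = _
        rw [e4, neg_div]
      rw [e3, Ell.X_neg]
    rw [Finset.prod_congr rfl fun i _ => e1 i, Finset.prod_congr rfl fun i _ => e2 i,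
      Finset.prod_mul_distrib, Finset.prod_const, Finset.card_univ, _root_.norm_prod,
      Finset.prod_pow]
    ring
  rw [hprod] at h1
  obtain ⟨A, hA⟩ : ∃ A, A = ‖∏ i, gg (em (c i) / em q.1)‖ := ⟨_, rfl⟩
  obtain ⟨B, hB⟩ : ∃ B, B = ‖em q.1‖ := ⟨_, rfl⟩
  rw [← hA, ← hB] at h1 ⊢
  have hA0 : 0 ≤ A := by rw [hA]; exact norm_nonneg _
  have hB0 : 0 ≤ B := by rw [hB]; exact norm_nonneg _
  have hn : ‖κ ^ 4 * zt ^ 4‖ = L ^ 4 * 4 := by
    rw [norm_mul, norm_pow, norm_pow, ← hL, show ‖zt‖ ^ 4 = (‖zt‖ ^ 2) ^ 2 by ring, norm_zt_sqV]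
    norm_num
  rw [hn, mul_comm 2 (Fintype.card ι), pow_mul (L ^ 4 * 4)] at h1
  have h2 : B ^ 2 * ((L ^ 2 / 2) ^ (Fintype.card ι * 2) * A ^ 4) = (L ^ 4 * 4) ^ Fintype.card ι :=
    (pow_left_inj₀ (by positivity) (by positivity) (by norm_num)).1 h1
  have h3 : (L ^ 4 * 4) ^ Fintype.card ι =
      (L ^ 2 / 2) ^ (Fintype.card ι * 2) * (4 ^ Fintype.card ι) ^ 2 := by
    rw [mul_comm (Fintype.card ι) 2, pow_mul, ← pow_mul 4 _ 2, mul_comm (Fintype.card ι) 2,
      pow_mul 4 2, ← mul_pow]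
    congr 1
    ring
  rw [h3] at h2
  have h4 : (L ^ 2 / 2) ^ (Fintype.card ι * 2) ≠ 0 := by positivity
  have h5 : (A ^ 2 * B) ^ 2 = (4 ^ Fintype.card ι) ^ 2 := by
    apply mul_left_cancel₀ h4
    rw [← h2]
    ring
  exact (pow_left_inj₀ (by positivity) (by positivity) (by norm_num)).1 h5

/-- the number of elements of a half system -/
theorem half_signV (q : Pg7) {m : ℕ} (h : Nat.card (𝓞 K ⧸ Ideal.span {q.1}) = 2 * m + 1) :
    (-1 : ℤ) ^ m = sg2 (aa q) := by
  have h1 : ((2 * m + 1 : ℕ) : ZMod 8) = ra q.1 * rb q.1 := by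
    rw [← norm_mod, ← card_eq, Int.cast_natCast, ← Nat.card_eq_fintype_card, ← h]
    rfl
  have h8 : (8 : ZMod 8) = 0 := by decide
  have h3 := q.ra2
  have h4 := odd_rb q.not_tb
  rw [aa]
  rcases Nat.even_or_odd' m with ⟨k, rfl | rfl⟩
  · rw [pow_mul, neg_one_sq, one_pow]
    have h5 : 2 * rb q.1 = 2 := by
      push_cast at h1
      have h6 : 2 * ra q.1 * rb q.1 = 2 := by
        linear_combination -2 * h1 + (k : ZMod 8) * h8
      rwa [h3] at h6
    revert h5
    generalize rb q.1 = w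
    revert w
    decide
  · rw [pow_succ, pow_mul, neg_one_sq, one_pow, one_mul]
    have h5 : 2 * rb q.1 = 6 := by
      push_cast at h1
      have h6 : 2 * ra q.1 * rb q.1 = 6 := by
        linear_combination -2 * h1 + (k : ZMod 8) * h8
      rwa [h3] at h6
    revert h5
    generalize rb q.1 = w
    revert w
    decide

/-- **The number attached to a prime.** -/
theorem prmV_exists (q : Pg7) : ∃ h : ℂ, h ≠ 0 ∧ ‖h‖ ^ 2 * ‖em q.1‖ = 1 ∧
    ∀ (τ : ℂ ≃+* ℂ) (χ : 𝓞 K) (s : ZMod 2) (M : ℕ), 0 < M → q.1 ∣ (M : 𝓞 K) →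
      (∀ a : 𝓞 K, τ (gg (em a / M)) = ((sg2 s : ℤ) : ℂ) * gg (em (χ * a) / M)) → ¬ q.1 ∣ χ →
      τ h = ((sg2 (aa q * s) : ℤ) : ℂ) * ((ch q χ : ℤ) : ℂ) * h := by
  classical
  obtain ⟨ι, _, c, hc, hn⟩ := exists_half (pqV q)
  have hsg := half_signV q hn
  have hq0 := q.prime.ne_zero
  have hnl : ∀ a : 𝓞 K, ¬ q.1 ∣ a → 2 * (em a / em q.1) ∉ PP.lattice := fun a ha =>
    two_em_notMemV q.prime q.not_two ha
  have hx0 : ∀ i, gg (em (c i) / em q.1) ≠ 0 := fun i => gg_ne (hnl _ (hc.nz i))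
  have hg0 : ∏ i, gg (em (c i) / em q.1) ≠ 0 := Finset.prod_ne_zero_iff.2 fun i _ => hx0 i
  have h20 : (2 : ℂ) ^ Fintype.card ι ≠ 0 := pow_ne_zero _ two_ne_zero
  refine ⟨(∏ i, gg (em (c i) / em q.1)) / 2 ^ Fintype.card ι, div_ne_zero hg0 h20, ?_, ?_⟩
  · have h1 := norm_halfV q hc
    have h2 : ‖(2 : ℂ)‖ = 2 := by norm_num
    have h3 : ((2 : ℝ) ^ Fintype.card ι) ^ 2 = 4 ^ Fintype.card ι := by
      rw [← pow_mul, mul_comm, pow_mul]
      norm_num
    have h4 : (4 : ℝ) ^ Fintype.card ι ≠ 0 := pow_ne_zero _ (by norm_num)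
    rw [norm_div, norm_pow, h2, div_pow, h3, div_mul_eq_mul_div, h1]
    exact div_self h4
  · rintro τ χ s M hM ⟨d, hd⟩ hR hχ
    have hM0 : (M : ℂ) ≠ 0 := by exact_mod_cast hM.ne'
    have hdM : em q.1 * em d = M := by
      rw [← em_mul, ← hd, em_natCast]
    have hd0 : em d ≠ 0 := right_ne_zero_of_mul (hdM ▸ hM0)
    have hf : ∀ a : 𝓞 K, em a / em q.1 = em (a * d) / M := by
      intro a
      rw [← hdM, em_mul, mul_div_mul_right _ _ hd0]
    have h1 : ∀ a : 𝓞 K, τ (gg (em a / em q.1)) =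
        ((sg2 s : ℤ) : ℂ) * gg (em (χ * a) / em q.1) := by
      intro a
      rw [hf, hR, hf, mul_assoc]
    have hper : ∀ a b : 𝓞 K, q.1 ∣ a - b → gg (em a / em q.1) = gg (em b / em q.1) :=
      fun a b hab => gg_cg (em_latP hq0 hab)
    have hodd : ∀ a : 𝓞 K, gg (em (-a) / em q.1) = -gg (em a / em q.1) := by
      intro a
      rw [em_neg, neg_div, gg_neg]
    obtain ⟨ε, he1, he2, he3⟩ := gauss_half (pqV q) hc (fun a => gg (em a / em q.1)) hper hodd hχ
    have hε : ε = ch q χ := by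
      have hiff : ε = 1 ↔ ch q χ = 1 := by
        rw [he2, ch_one_iff hχ]
        constructor
        · rintro ⟨y, hy⟩
          exact ⟨y, by rwa [← dvd_neg, neg_sub]⟩
        · rintro ⟨y, hy⟩
          exact ⟨y, by rwa [← dvd_neg, neg_sub]⟩
      rcases he1 with h2 | h2
      · rw [h2, hiff.1 h2]
      · rcases ch_or hχ with h3 | h3
        · have h4 := hiff.2 h3
          omega
        · rw [h2, h3]
    have hs : ((sg2 s : ℤ) : ℂ) ^ Fintype.card ι = ((sg2 (aa q * s) : ℤ) : ℂ) := by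
      rw [← Int.cast_pow]
      congr 1
      have h01 : ∀ v : ZMod 2, v = 0 ∨ v = 1 := by decide
      rcases h01 s with h | h
      · rw [h, mul_zero, sg2_zero, one_pow]
      · rw [h, mul_one, sg2_one, hsg]
    rw [map_div₀, map_prod, map_pow, map_ofNat, Finset.prod_congr rfl fun i _ => h1 (c i),
      Finset.prod_mul_distrib, Finset.prod_const, Finset.card_univ, he3, hε, hs]
    ring

end

end Pool.Agent.Lib.MP_1a91b9_ntV.F
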