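import Pool.Agent.Lib.MP_1a91b9_ntV.F.BaseV
import Pool.Agent.Lib.MP_1a91b9_ntV.A.Prim7
import Pool.Agent.Lib.MP_1a91b9_ntV.L.Def7

/-!
# Form T over `ℚ(√-7)`, file RatV: the rationality of the L-quotient

`ratV_of (hP : PrmV) d0 d1 d2 S : ∃ q : ℚ, ‖LS d0 d1 d2 S‖ ^ 2 * ‖em (dE d0 d1 d2 S)‖ = q`.
-/

set_option autoImplicit false
set_option linter.unusedSectionVars false

namespace Pool.Agent.Lib.MP_1a91b9_ntV.F

open NumberField Finset Pool.Agent.Lib.MP_1a91b9_nuT Pool.Agent.Lib.MP_1a91b9_nuT.S3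
  Pool.Agent.Lib.MP_1a91b9_nuT.Ell
open Pool.Agent.Lib.MP_1a91b9_ntQ (em em_add em_mul em_pow em_sub em_neg em_zero em_one em_ne em_prod
  em_ofNat em_intCast em_natCast em_inj)
open Pool.Agent.Lib.MP_1a91b9_ntV.L (dE dE_ne WE)

noncomputable section

variable [CD] [hv : V7]

/-- the numbers attached to the primes -/
def PrmV : Prop := ∀ q : Pg7, ∃ h : ℂ, h ≠ 0 ∧ (∃ n : ℕ, ‖h‖ ^ 2 * ‖em q.1‖ = 2 ^ n) ∧
  ∀ (τ : ℂ ≃+* ℂ) (M : ℕ) (χ : 𝓞 K), AutV τ M χ → q.1 ∣ (M : 𝓞 K) → τ h = (ch q χ : ℂ) * h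

/-- the norm of an element -/
theorem norm_em (x : 𝓞 K) : ((Algebra.norm ℤ x : ℤ) : ℝ) = ‖em x‖ ^ 2 := by
  have h := S3.norm_O x
  rw [Complex.mul_conj, Complex.normSq_eq_norm_sq] at h
  exact_mod_cast h

theorem dvd_norm (x : 𝓞 K) : x ∣ ((Algebra.norm ℤ x).natAbs : 𝓞 K) := by
  rw [← Ideal.absNorm_span_singleton, ← Ideal.mem_span_singleton]
  exact Ideal.absNorm_mem _

theorem natAbs_ne {x : 𝓞 K} (hx : x ≠ 0) : 0 < (Algebra.norm ℤ x).natAbs := by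
  rw [Int.natAbs_pos]
  exact Algebra.norm_ne_zero_iff.2 hx

theorem norm_dE (d0 d1 d2 : ZMod 2) (S : Finset Pg7) :
    ‖em (dE d0 d1 d2 S)‖ = ‖zt‖ ^ d1.val * ‖ab‖ ^ d2.val * ‖em (DD S)‖ := by
  rw [dE, em_mul, em_mul, em_mul, em_pow, em_pow, em_pow, em_neg, em_one, em_ta, em_tb, norm_mul,
    norm_mul, norm_mul, norm_pow, norm_pow, norm_pow, norm_neg, norm_one, one_pow, one_mul]

theorem cf_dvd (d0 d1 d2 : ZMod 2) (S : Finset Pg7) : DD S ∣ cf d0 d1 d2 S := dvd_mul_left _ _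

/-- **The rationality of the L-quotient.** -/
theorem ratV_of (hP : PrmV) (d0 d1 d2 : ZMod 2) (S : Finset Pg7) : ∃ q : ℚ,
    ‖LS d0 d1 d2 S‖ ^ 2 * ‖em (dE d0 d1 d2 S)‖ = (q : ℝ) := by
  classical
  choose hh' hh0 hhn hhτ using hP
  choose m hm using hhn
  obtain ⟨P, hPd⟩ : ∃ P : ℂ, P = ∏ q ∈ S, hh' q := ⟨_, rfl⟩
  have hP0 : P ≠ 0 := by
    rw [hPd]
    exact Finset.prod_ne_zero_iff.2 fun q _ => hh0 q
  obtain ⟨H, hH⟩ : ∃ H : ℂ, H = H0 (d0 + d1 + AA S) d1 d2 := ⟨_, rfl⟩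
  have hHn : ‖H‖ ^ 2 = ‖zt‖ ^ d1.val * ‖ab‖ ^ d2.val := by rw [hH, norm_H0]
  obtain ⟨N, hN⟩ : ∃ N, N = cf d0 d1 d2 S := ⟨_, rfl⟩
  have hN0 : N ≠ 0 := by
    rw [hN]
    exact cf_ne _ _ _ _
  -- the product is in `K`
  obtain ⟨x, hx⟩ : ∃ x : K, embK x = LS d0 d1 d2 S * (H * P) := by
    refine Rg.mem_K fun τ hτ => ?_
    obtain ⟨M, hM⟩ : ∃ M : ℕ, M = 8 * (Algebra.norm ℤ N).natAbs := ⟨_, rfl⟩
    have hM0 : 0 < M := by
      have := natAbs_ne hN0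
      omega
    have hNM : N ∣ (M : 𝓞 K) := by
      rw [hM]
      push_cast
      exact (dvd_norm N).mul_left _
    obtain ⟨χ, hA⟩ := AutV.exists hτ hM0 ⟨_, hM⟩
    have hqM : ∀ q ∈ S, q.1 ∣ (M : 𝓞 K) := by
      intro q hq
      refine Dvd.dvd.trans ?_ hNM
      rw [hN]
      exact (Finset.dvd_prod_of_mem (fun q : Pg7 => q.1) hq).trans (cf_dvd _ _ _ _)
    have hcop : IsCoprime χ (cf d0 d1 d2 S) := by
      rw [← hN]
      exact IsCoprime.of_isCoprime_of_dvd_right hA.cop hNM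
    have hne : ph d0 d1 d2 S χ ≠ 0 := (ph_ne_iff d0 d1 d2 S).2 hcop
    have hsq := ph_sq d0 d1 d2 S hne
    have t1 := hA.SE hN0 hNM (Y := fun c => ((ph d0 d1 d2 S c : ℤ) : ℂ)) (by
      rw [hN]
      exact ph_pd d0 d1 d2 S) (ph_mu d0 d1 d2 S) (fun a => map_intCast τ _)
    have e1 : SE ee N (fun c => ((ph d0 d1 d2 S c : ℤ) : ℂ)) = LS d0 d1 d2 S := by rw [hN, LS]
    rw [e1] at t1
    have t2 := hA.H0 (1 + d0 + d2) (d0 + d1 + AA S) d1 d2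
    rw [← hH] at t2
    have t3 : τ P = ((chS S χ : ℤ) : ℂ) * P := by
      rw [hPd, map_prod, chS]
      push_cast
      rw [← Finset.prod_mul_distrib]
      exact Finset.prod_congr rfl fun q hq => hhτ q τ M χ hA (hqM q hq)
    have e2 : ((lA (1 + d0 + d2) d1 χ * lB (d0 + d1 + AA S) d2 χ : ℤ) : ℂ) * ((chS S χ : ℤ) : ℂ) =
        ((ph d0 d1 d2 S χ : ℤ) : ℂ) := by
      rw [ph]
      push_cast
      ring
    have hsq' : ((ph d0 d1 d2 S χ : ℤ) : ℂ) * ((ph d0 d1 d2 S χ : ℤ) : ℂ) = 1 := by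
      exact_mod_cast hsq
    rw [map_mul, map_mul, t2, t3]
    have e3 : τ (LS d0 d1 d2 S) * (((lA (1 + d0 + d2) d1 χ * lB (d0 + d1 + AA S) d2 χ : ℤ) : ℂ) * H *
        (((chS S χ : ℤ) : ℂ) * P)) = τ (LS d0 d1 d2 S) * (H * P) *
        (((lA (1 + d0 + d2) d1 χ * lB (d0 + d1 + AA S) d2 χ : ℤ) : ℂ) * ((chS S χ : ℤ) : ℂ)) := by
      ring
    rw [e3, e2]
    linear_combination (H * P) * t1
  have hLn : ‖LS d0 d1 d2 S‖ ^ 2 * (‖H‖ ^ 2 * ‖P‖ ^ 2) = ((Algebra.norm ℚ x : ℚ) : ℝ) := by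
    have h2 := S3.norm_K x
    rw [Complex.mul_conj, Complex.normSq_eq_norm_sq] at h2
    have h3 : ((Algebra.norm ℚ x : ℚ) : ℝ) = ‖embK x‖ ^ 2 := by exact_mod_cast h2
    rw [h3, hx, norm_mul, norm_mul]
    ring
  -- the absolute value of `P`
  have hPn : ‖P‖ ^ 2 * ‖em (DD S)‖ = 2 ^ (∑ q ∈ S, m q) := by
    rw [hPd, DD, em_prod, _root_.norm_prod, _root_.norm_prod, ← Finset.prod_pow,
      ← Finset.prod_mul_distrib, Finset.prod_congr rfl fun q _ => hm q,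
      Finset.prod_pow_eq_pow_sum]
  have hD : ‖em (DD S)‖ ≠ 0 := norm_ne_zero_iff.2 (em_ne (DD_ne S))
  have hDn := norm_em (DD S)
  refine ⟨(Algebra.norm ℚ x) * (Algebra.norm ℤ (DD S) : ℤ) / 2 ^ (∑ q ∈ S, m q), ?_⟩
  rw [norm_dE, ← hHn]
  push_cast
  rw [← hLn, hDn, eq_div_iff (by positivity), ← hPn]
  ring

end

end Pool.Agent.Lib.MP_1a91b9_ntV.F
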